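import Pool.Agent.Lib.MP_2a6af3_al.C.Label

/-! The bottleneck property of `C(a) / ⟨a⟩` (MP_2a6af3_al, helper40). -/

namespace MSG.FS

open Classical
open MSG.H25.Gr (Ho ho_refl ho_trans ho_congr ho_symm ho_mono ho_isW ho_reverse ho_cancel ho_cat
  ho_of_loop isW_cat isW_reverse isW_single isW_ne isW_cons cat_eq cat_assoc cat_last cat_single
  cat_reverse cat_map mem_cat hom_zero exists_isW)

variable {V : Type} {Γ : Type} [Group Γ] [MulAction Γ V] {G : SimpleGraph V}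

/-- the walk of a word -/
def pwl (om : Γ → List V) (x₀ : V) : List Γ → List V
  | [] => [x₀]
  | s :: l => cat (om s) (tr s (pwl om x₀ l))

theorem Gen.tri {Sg : Finset Γ} {a : Γ} (h : Gen Sg a) {x y z : Γ} (hx : a * x = x * a)
    (hy : a * y = y * a) (hz : a * z = z * a) :
    ell Sg a (x⁻¹ * z) ≤ ell Sg a (x⁻¹ * y) + ell Sg a (y⁻¹ * z) := by
  have := h.ell_mul (comm_inv_mul hx hy) (comm_inv_mul hy hz)
  rwa [mul_assoc, mul_inv_cancel_left] at this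

theorem Gen.sym {Sg : Finset Γ} {a : Γ} (h : Gen Sg a) {x y : Γ} (hx : a * x = x * a)
    (hy : a * y = y * a) : ell Sg a (x⁻¹ * y) = ell Sg a (y⁻¹ * x) := by
  have := h.ell_inv (comm_inv_mul hx hy)
  rw [mul_inv_rev, inv_inv] at this
  exact this.symm

section lab

variable {X : Cx V} {a : Γ} {x₀ : V} {Sg : Finset Γ} {S : Set V} {om : Γ → List V}
  {τ : V → List V}

theorem Dat.pwlW (D : Dat X a x₀ Sg S om τ) {l : List Γ} (hl : ∀ s ∈ l, s ∈ Sg) :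
    IsW X.G x₀ (l.prod • x₀) (pwl om x₀ l) := by
  induction l with
  | nil =>
    rw [List.prod_nil, one_smul]
    exact isW_single x₀
  | cons s l ih =>
    have h1 := ih (fun t ht => hl t (List.mem_cons_of_mem _ ht))
    rw [List.prod_cons, mul_smul]
    exact isW_cat (D.omW s (hl s (by simp))) (isW_tr D.geom.adj s h1)

theorem Dat.mem_pwl (D : Dat X a x₀ Sg S om τ) {l : List Γ} (hl : ∀ s ∈ l, s ∈ Sg) {z : V}
    (hz : z ∈ pwl om x₀ l) : ∃ j ≤ l.length, ∃ y ∈ S, z = pre l j • y := by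
  induction l generalizing z with
  | nil =>
    refine ⟨0, le_rfl, x₀, D.x₀S, ?_⟩
    rw [pre_zero, one_smul]
    simpa [pwl] using hz
  | cons s l ih =>
    rcases mem_cat hz with hz | hz
    · exact ⟨0, Nat.zero_le _, z, D.omS s (hl s (by simp)) z hz, by rw [pre_zero, one_smul]⟩
    · obtain ⟨u, hu, rfl⟩ := mem_tr.1 hz
      obtain ⟨j, hj, y, hy, rfl⟩ := ih (fun t ht => hl t (List.mem_cons_of_mem _ ht)) hu
      refine ⟨j + 1, by simpa using hj, y, hy, ?_⟩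
      rw [← mul_smul]
      congr 1

theorem Dat.pwlL (D : Dat X a x₀ Sg S om τ) {l : List Γ} (hl : ∀ s ∈ l, s ∈ Sg) {z : V}
    (hz : z ∈ pwl om x₀ l) : z ∈ Lset a S := by
  obtain ⟨j, -, y, hy, rfl⟩ := D.mem_pwl hl hz
  exact ⟨pre l j, D.gen.pre_comm hl j, y, hy, rfl⟩

theorem Dat.pwlT (D : Dat X a x₀ Sg S om τ) {l : List Γ} (hl : ∀ s ∈ l, s ∈ Sg) :
    Tile X.G (Lset a S) l.prod a (pwl om x₀ l) (τ x₀) := by
  induction l with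
  | nil =>
    unfold Tile
    have e1 : cat (pwl om x₀ ([] : List Γ)) (tr ([] : List Γ).prod (τ x₀)) = τ x₀ := by
      rw [List.prod_nil, tr_one]
      exact cat_single (D.τW x₀)
    have e2 : cat (τ x₀) (tr a (pwl om x₀ ([] : List Γ))) = τ x₀ := cat_last _
    rw [e1, e2]
    exact ho_refl _
  | cons s l ih =>
    have hs : s ∈ Sg := hl s (by simp)
    have hl' : ∀ t ∈ l, t ∈ Sg := fun t ht => hl t (List.mem_cons_of_mem _ ht)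
    rw [List.prod_cons]
    exact Tile.comp D.geom.adj (D.gen.comm s hs).symm (D.gen.prod hl').symm (D.omW s hs)
      (D.pwlW hl') (D.τW x₀) subset_rfl (fun y hy => (Lset_smul (D.gen.comm s hs) y).2 hy)
      (D.tile s hs) (ih hl')

theorem zpow_perm (a : Γ) (n : ℤ) (x : V) :
    ((MulAction.toPerm a : Equiv.Perm V) ^ n) x = a ^ n • x := by
  have h := map_zpow (MulAction.toPermHom Γ V) a n
  exact (congrArg (fun e : Equiv.Perm V => e x) h).symm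

theorem pre_drop (l : List Γ) {i : ℕ} (hi : i ≤ l.length) (j : ℕ) :
    pre l (i + j) = pre l i * pre (l.drop i) j := by
  unfold pre
  have h1 : l.take (i + j) = l.take i ++ (l.drop i).take j := List.take_add
  rw [h1, List.prod_append]

theorem pre_take (l : List Γ) {i j : ℕ} (hj : j ≤ i) : pre (l.take i) j = pre l j := by
  unfold pre
  rw [List.take_take, min_eq_left hj]

theorem nr_zsmul (hadj : ∀ (g : Γ) x y, G.Adj (g • x) (g • y) ↔ G.Adj x y) (g : Γ) (x y : V) :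
    Nr G (g • x) (g • y) ↔ Nr G x y := by
  rw [nr_smul hadj, inv_smul_smul]

theorem Dat.bottle (D : Dat X a x₀ Sg S om τ) : ∃ r₀ : ℕ, ∀ l : List Γ, Geod Sg a l →
    ∀ i ≤ l.length, ∀ π₀, IsW X.G x₀ (l.prod • x₀) π₀ → (∀ z ∈ π₀, z ∈ Lset a S) →
    ∃ c, a * c = c * a ∧ ∃ s ∈ S, c • s ∈ π₀ ∧ ell Sg a ((pre l i)⁻¹ * c) ≤ r₀ := by
  obtain ⟨M, hMf, hM⟩ := D.tiles
  obtain ⟨κ₁, hκ₁⟩ := near_ell D.geom D.gen hMf hMf
  obtain ⟨κ₂, hκ₂⟩ := near_ell D.geom D.gen D.fin D.fin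
  have hadj := D.geom.adj
  refine ⟨2 * κ₁ + 3 * κ₂, ?_⟩
  intro l hl i hi π₀ hπ₀ hπ₀L
  have ci := D.gen.pre_comm hl.mem i
  have cp := D.gen.prod hl.mem
  have hd : ∀ s ∈ l.drop i, s ∈ Sg := fun s hs => hl.mem s (List.mem_of_mem_drop hs)
  have ht : ∀ s ∈ l.take i, s ∈ Sg := fun s hs => hl.mem s (List.mem_of_mem_take hs)
  -- the sides
  obtain ⟨π₁, hπ₁⟩ : ∃ π₁, π₁ = (tr (pre l i) (pwl om x₀ (l.drop i))).reverse := ⟨_, rfl⟩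
  obtain ⟨π₂, hπ₂⟩ : ∃ π₂, π₂ = (pwl om x₀ (l.take i)).reverse := ⟨_, rfl⟩
  have w₁ : IsW X.G (l.prod • x₀) (pre l i • x₀) π₁ := by
    rw [hπ₁]
    have := isW_tr hadj (pre l i) (D.pwlW hd)
    rw [← mul_smul, pre_prod] at this
    exact isW_reverse this
  have w₂ : IsW X.G (pre l i • x₀) x₀ π₂ := by
    rw [hπ₂]
    exact isW_reverse (D.pwlW ht)
  have m₁ : ∀ z ∈ π₁, ∃ J, i ≤ J ∧ J ≤ l.length ∧ ∃ y ∈ S, z = pre l J • y := by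
    intro z hz
    rw [hπ₁, List.mem_reverse] at hz
    obtain ⟨u, hu, rfl⟩ := mem_tr.1 hz
    obtain ⟨j, hj, y, hy, rfl⟩ := D.mem_pwl hd hu
    rw [List.length_drop] at hj
    exact ⟨i + j, by omega, by omega, y, hy, by rw [pre_drop l hi, mul_smul]⟩
  have m₂ : ∀ z ∈ π₂, ∃ J, J ≤ i ∧ ∃ y ∈ S, z = pre l J • y := by
    intro z hz
    rw [hπ₂, List.mem_reverse] at hz
    obtain ⟨j, hj, y, hy, rfl⟩ := D.mem_pwl ht hz
    rw [List.length_take] at hj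
    have hji : j ≤ i := by omega
    exact ⟨j, hji, y, hy, by rw [pre_take l hji]⟩
  have L₁ : ∀ z ∈ π₁, z ∈ Lset a S := by
    intro z hz
    obtain ⟨J, -, -, y, hy, rfl⟩ := m₁ z hz
    exact ⟨pre l J, D.gen.pre_comm hl.mem J, y, hy, rfl⟩
  have L₂ : ∀ z ∈ π₂, z ∈ Lset a S := by
    intro z hz
    obtain ⟨J, -, y, hy, rfl⟩ := m₂ z hz
    exact ⟨pre l J, D.gen.pre_comm hl.mem J, y, hy, rfl⟩
  -- the annuli
  have one_c : a * (1 : Γ) = 1 * a := by simp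
  obtain ⟨S₀, S₀f, N₀, z₀⟩ := D.annulus hMf hM π₀ 1 l.prod x₀ x₀ (by rwa [one_smul]) hπ₀L
    one_c cp D.x₀S D.x₀S
  obtain ⟨S₁, S₁f, N₁, z₁⟩ := D.annulus hMf hM π₁ l.prod (pre l i) x₀ x₀ w₁ L₁ cp ci D.x₀S D.x₀S
  obtain ⟨S₂, S₂f, N₂, z₂⟩ := D.annulus hMf hM π₂ (pre l i) 1 x₀ x₀ (by rwa [one_smul]) L₂ ci
    one_c D.x₀S D.x₀S
  rw [tr_one] at N₀ N₂
  have tw : ∀ (d : Γ), a * d = d * a → IsW X.G (d • x₀) (a • (d • x₀)) (tr d (τ x₀)) := by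
    intro d hd
    have := isW_tr hadj d (D.τW x₀)
    rw [← mul_smul, ← hd, mul_smul] at this
    exact this
  obtain ⟨u, v, w, ⟨n₀, hu⟩, ⟨n₁, hv⟩, ⟨n₂, hw⟩, huv, hvw, -⟩ := a_tube V X (MulAction.toPerm a) D.ms
    D.free D.geom.locfin S₀ S₁ S₂ S₀f S₁f S₂f x₀ (l.prod • x₀) (pre l i • x₀) π₀ π₁ π₂ (τ x₀)
    (tr l.prod (τ x₀)) (tr (pre l i) (τ x₀)) hπ₀ w₁ w₂ (D.τW x₀) (tw _ cp) (tw _ ci) N₀ N₁ N₂
  rw [zpow_perm] at hu hv hw
  obtain ⟨d₀, hd₀, t₀, ht₀, hm₀, m₀, hm₀M, e₀⟩ := z₀ _ hu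
  obtain ⟨d₁, hd₁, t₁, ht₁, hm₁, q₁, hq₁M, e₁⟩ := z₁ _ hv
  obtain ⟨d₂, hd₂, t₂, ht₂, hm₂, q₂, hq₂M, e₂⟩ := z₂ _ hw
  -- distances between the labels
  have shift : ∀ (n n' : ℤ) (u : V) (d : Γ) (m : V), a * d = d * a → a ^ n • u = d • m →
      a ^ n' • u = d • (a ^ (n' - n) • m) := by
    intro n n' u d m hd h
    have h1 := comm_zpow' hd (n' - n)
    rw [← mul_smul, ← h1, mul_smul, ← h, ← mul_smul, ← zpow_add]
    congr 2
    ring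
  have k01 : ell Sg a (d₀⁻¹ * d₁) ≤ κ₁ := by
    refine hκ₁ d₀ d₁ hd₀ hd₁ m₀ hm₀M q₁ hq₁M (n₁ - n₀) ?_
    rw [← shift n₀ n₁ u d₀ m₀ hd₀ e₀, ← e₁, nr_zsmul hadj]
    exact huv
  have k12 : ell Sg a (d₁⁻¹ * d₂) ≤ κ₁ := by
    refine hκ₁ d₁ d₂ hd₁ hd₂ q₁ hq₁M q₂ hq₂M (n₂ - n₁) ?_
    rw [← shift n₁ n₂ v d₁ q₁ hd₁ e₁, ← e₂, nr_zsmul hadj]
    exact hvw
  obtain ⟨J, hiJ, hJl, y, hy, ey⟩ := m₁ _ hm₁
  obtain ⟨J', hJ'i, y', hy', ey'⟩ := m₂ _ hm₂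
  have cJ := D.gen.pre_comm hl.mem J
  have cJ' := D.gen.pre_comm hl.mem J'
  have kJ : ell Sg a ((pre l J)⁻¹ * d₁) ≤ κ₂ := by
    refine hκ₂ _ _ cJ hd₁ y hy t₁ ht₁ 0 ?_
    rw [zpow_zero, one_smul]
    exact Or.inl ey.symm
  have kJ' : ell Sg a ((pre l J')⁻¹ * d₂) ≤ κ₂ := by
    refine hκ₂ _ _ cJ' hd₂ y' hy' t₂ ht₂ 0 ?_
    rw [zpow_zero, one_smul]
    exact Or.inl ey'.symm
  have b1 : J ≤ J' + ell Sg a ((pre l J')⁻¹ * pre l J) := hl.lower D.gen (hJ'i.trans hiJ) hJl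
  have b2 := D.gen.tri cJ' hd₂ cJ
  have b3 := D.gen.tri hd₂ hd₁ cJ
  have b4 := D.gen.sym hd₁ hd₂
  have b5 := D.gen.sym cJ hd₁
  have b6 := ell_pre_le D.gen hl.mem hiJ
  have b7 := D.gen.tri ci cJ hd₀
  have b8 := D.gen.tri cJ hd₁ hd₀
  have b9 := D.gen.sym hd₀ hd₁
  refine ⟨d₀, hd₀, t₀, ht₀, hm₀, ?_⟩
  omega

end lab

end MSG.FS
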