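import Pool.Agent.Lib.MP_2a6af3_al.C.WallC

/-! First estimate: the length in `C(a) / ⟨a⟩` (MP_2a6af3_al, helper40). -/

namespace MSG.FS

open Classical
open MSG.H25.Gr (Ho ho_refl ho_trans ho_congr ho_symm ho_mono ho_isW ho_reverse ho_cancel ho_cat
  ho_of_loop isW_cat isW_reverse isW_single isW_ne isW_cons cat_eq cat_assoc cat_last cat_single
  cat_reverse cat_map mem_cat hom_zero exists_isW)

variable {V : Type} {Γ : Type} [Group Γ] [MulAction Γ V] {G : SimpleGraph V}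

/-- a geodesic walk -/
theorem exists_geodW {G : SimpleGraph V} (hG : G.Connected) (x y : V) :
    ∃ l, IsW G x y l ∧ l.length = G.dist x y + 1 := by
  obtain ⟨p, hp⟩ := (hG x y).exists_walk_length_eq_dist
  refine ⟨p.support, ⟨p.isChain_adj_support, ?_, ?_⟩, ?_⟩
  · rw [List.head?_eq_some_head p.support_ne_nil, p.head_support]
  · rw [List.getLast?_eq_some_getLast p.support_ne_nil, p.getLast_support]
  · rw [SimpleGraph.Walk.length_support, hp]

theorem nr_distW {G : SimpleGraph V} {x y : V} (h : Nr G x y) : G.dist x y ≤ 1 := by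
  rcases h with rfl | h
  · simp
  · exact (SimpleGraph.dist_eq_one_iff_adj.2 h).le

section lab

variable {X : Cx V} {a : Γ} {x₀ : V} {Sg : Finset Γ} {S : Set V} {om : Γ → List V}
  {τ : V → List V} {r : ℕ}

/-- the constant `κ` for labels of near points of `L` -/
def Kap (X : Cx V) (Sg : Finset Γ) (a : Γ) (S : Set V) (κ : ℕ) : Prop :=
  ∀ c c' : Γ, a * c = c * a → a * c' = c' * a → ∀ m ∈ S, ∀ m' ∈ S, ∀ k : ℤ,
      Nr X.G (c • (a ^ k • m)) (c' • m') → ell Sg a (c⁻¹ * c') ≤ κ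

theorem Dat.lab (D : Dat X a x₀ Sg S om τ) {κ : ℕ} (hκ : Kap X Sg a S κ) {g c : Γ} {s : V}
    (hg : a * g = g * a) (hc : a * c = c * a) (hs : s ∈ S) (h : c • s ∈ Zc X Sg a S r g) :
    ell Sg a (g⁻¹ * c) ≤ r + κ := by
  obtain ⟨-, u, ⟨c', hc', hr, s', hs', rfl⟩, hn⟩ := h
  have h1 : ell Sg a (c'⁻¹ * c) ≤ κ := by
    refine hκ c' c hc' hc s' hs' s hs 0 ?_
    rw [zpow_zero, one_smul]
    exact hn
  have := D.gen.tri hg hc' hc
  omega

theorem Dat.avoid (D : Dat X a x₀ Sg S om τ) {κ : ℕ} (hκ : Kap X Sg a S κ) {g e : Γ}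
    (hg : a * g = g * a) (he : a * e = e * a) (h : r + κ < ell Sg a (g⁻¹ * e)) :
    ∀ z ∈ tr e (τ x₀), z ∉ Bc Sg a S r g := by
  intro z hz hb
  obtain ⟨u, hu, rfl⟩ := mem_tr.1 hz
  have := D.lab hκ hg he (D.τS u hu) (Bc_Zc (X := X) hb)
  omega

/-- near a vertex there are few pairs (wall, height) -/
theorem Dat.count (D : Dat X a x₀ Sg S om τ) {κ : ℕ} (hκ : Kap X Sg a S κ) {n : ℕ}
    (hn : ∀ x : V, {y | X.G.dist x y ≤ 1}.Finite ∧ {y | X.G.dist x y ≤ 1}.ncard ≤ n)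
    (h₀ : V → ℤ) (H : ℤ) {l : List Γ} (hl : Geod Sg a l) (I : Finset ℕ)
    (hI : ∀ i ∈ I, i ≤ l.length) (c : V) :
    ∃ T : Finset (ℕ × ℤ), T.card ≤ n * ((2 * (r + κ) + 1) * (2 * H.toNat + 1)) ∧
      ∀ i ∈ I, ∀ p : ℤ, ∀ y ∈ Lset a S, y ∈ Zc X Sg a S r (pre l i) → Nr X.G c y →
        |h₀ ((pre l i)⁻¹ • y) - p| ≤ H → (i, p) ∈ T := by
  refine ⟨(hn c).1.toFinset.biUnion (fun y =>
    (I.filter (fun i => y ∈ Zc X Sg a S r (pre l i))).biUnion (fun i =>
      (Finset.Icc (h₀ ((pre l i)⁻¹ • y) - H) (h₀ ((pre l i)⁻¹ • y) + H)).image (fun p => (i, p)))),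
    ?_, ?_⟩
  · refine (Finset.card_biUnion_le_card_mul _ _ ((2 * (r + κ) + 1) * (2 * H.toNat + 1)) ?_).trans ?_
    · intro y _
      refine (Finset.card_biUnion_le_card_mul _ _ (2 * H.toNat + 1) ?_).trans ?_
      · intro i _
        refine Finset.card_image_le.trans ?_
        rw [Int.card_Icc]
        omega
      · apply Nat.mul_le_mul_right
        rcases Finset.eq_empty_or_nonempty (I.filter (fun i => y ∈ Zc X Sg a S r (pre l i)))
          with h0 | h0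
        · rw [h0]; simp
        · obtain ⟨i₀, hi₀, hmin⟩ := Finset.exists_min_image _ (fun i : ℕ => i) h0
          rw [Finset.mem_filter] at hi₀
          obtain ⟨cy, hcy, s, hs, hy⟩ := hi₀.2.1
          have hsub : I.filter (fun i => y ∈ Zc X Sg a S r (pre l i)) ⊆
              Finset.Icc i₀ (i₀ + 2 * (r + κ)) := by
            intro j hj
            have hmj := hmin j hj
            rw [Finset.mem_filter] at hj
            have ci := D.gen.pre_comm hl.mem i₀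
            have cj := D.gen.pre_comm hl.mem j
            have z1 := hi₀.2
            have z2 := hj.2
            rw [hy] at z1 z2
            have e1 := D.lab hκ ci hcy hs z1
            have e2 := D.lab hκ cj hcy hs z2
            have e3 := hl.lower D.gen hmj (hI j hj.1)
            have e4 := D.gen.tri ci hcy cj
            have e5 := D.gen.sym cj hcy
            rw [Finset.mem_Icc]
            omega
          refine (Finset.card_le_card hsub).trans ?_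
          rw [Nat.card_Icc]
          omega
    · rw [← Set.ncard_eq_toFinset_card _ (hn c).1]
      exact Nat.mul_le_mul_right _ (hn c).2
  · intro i hi p y hyL hyZ hcy hp
    rw [Finset.mem_biUnion]
    refine ⟨y, (hn c).1.mem_toFinset.2 (nr_distW hcy), ?_⟩
    rw [Finset.mem_biUnion]
    refine ⟨i, Finset.mem_filter.2 ⟨hi, hyZ⟩, ?_⟩
    rw [Finset.mem_image]
    have := abs_le.1 hp
    exact ⟨p, by rw [Finset.mem_Icc]; omega, rfl⟩

/-- values of the wall function at the two ends -/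
theorem Dat.ends (D : Dat X a x₀ Sg S om τ) {r₀ : ℕ} (hr₀ : ∀ l : List Γ, Geod Sg a l →
    ∀ i ≤ l.length, ∀ π₀, IsW X.G x₀ (l.prod • x₀) π₀ → (∀ z ∈ π₀, z ∈ Lset a S) →
    ∃ c, a * c = c * a ∧ ∃ s ∈ S, c • s ∈ π₀ ∧ ell Sg a ((pre l i)⁻¹ * c) ≤ r₀) {κ : ℕ}
    (hκ : Kap X Sg a S κ) {l : List Γ} (hl : Geod Sg a l) {i : ℕ} (h1 : r₀ + κ < i)
    (h2 : i + (r₀ + κ) < l.length) (v : V) (hv : v ∈ τ x₀) :
    ¬ Rch X x₀ Sg a S r₀ (pre l i) l.prod v ∧
      Rch X x₀ Sg a S r₀ (pre l i) l.prod (l.prod • v) := by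
  have ci := D.gen.pre_comm hl.mem i
  have cp := D.gen.prod hl.mem
  have hadj := D.geom.adj
  have one_c : a * (1 : Γ) = 1 * a := by simp
  constructor
  · rintro ⟨π, hπ, hz⟩
    obtain ⟨π', hπ', hsub⟩ := isW_prefix (D.τW x₀) hv
    have av : ∀ z ∈ tr (1 : Γ) (τ x₀), z ∉ Bc Sg a S r₀ (pre l i) := by
      refine D.avoid hκ ci one_c ?_
      have e1 := hl.lower D.gen (Nat.zero_le i) (by omega)
      rw [pre_zero] at e1
      have e2 := D.gen.sym one_c ci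
      omega
    rw [tr_one] at av
    obtain ⟨c, hc, s, hs, hm, hr⟩ := hr₀ l hl i (by omega) _ (isW_cat hπ' hπ) (by
      intro z hz'
      rcases mem_cat hz' with h | h
      · exact S_Lset (D.τS z (hsub z h))
      · exact (hz z h).1)
    have hb : c • s ∈ Bc Sg a S r₀ (pre l i) := ⟨c, hc, hr, s, hs, rfl⟩
    rcases mem_cat hm with h | h
    · exact av _ (hsub _ h) hb
    · exact (hz _ h).2 hb
  · have av : ∀ z ∈ tr l.prod (τ x₀), z ∉ Bc Sg a S r₀ (pre l i) := by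
      refine D.avoid hκ ci cp ?_
      have e1 := hl.lower D.gen (i := i) (j := l.length) (by omega) le_rfl
      rw [pre_length] at e1
      omega
    obtain ⟨π', hπ', hsub⟩ := isW_prefix (isW_tr hadj l.prod (D.τW x₀)) (mem_tr.2 ⟨v, hv, rfl⟩)
    refine ⟨π'.reverse, isW_reverse hπ', ?_⟩
    intro z hz
    rw [List.mem_reverse] at hz
    refine ⟨?_, av z (hsub z hz)⟩
    obtain ⟨u, hu, rfl⟩ := mem_tr.1 (hsub z hz)
    exact ⟨l.prod, cp, u, D.τS u hu, rfl⟩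

/-- First estimate. -/
theorem Dat.est1 (D : Dat X a x₀ Sg S om τ) {C : ℕ} (hC : CoarseHyp X.G C) : ∃ K : ℕ,
    ∀ g : Γ, a * g = g * a → ell Sg a g ≤ K * (X.G.dist x₀ (g • x₀) + 1) := by
  have hadj := D.geom.adj
  obtain ⟨r₀, hr₀⟩ := D.bottle
  obtain ⟨κ, hκ⟩ := near_ell D.geom D.gen D.fin D.fin
  obtain ⟨h₀, H, hH0, hh1, hh2⟩ := D.heights r₀
  obtain ⟨n, hn⟩ := hC.ball 1
  obtain ⟨B, hB⟩ : ∃ B : ℕ, B = n * ((2 * (r₀ + κ) + 1) * (2 * H.toNat + 1)) := ⟨_, rfl⟩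
  obtain ⟨ls, hls⟩ : ∃ ls : ℕ, ls = (τ x₀).length := ⟨_, rfl⟩
  refine ⟨4 * (B * C) * ls ^ 2 + 2 * (r₀ + κ) + 1, ?_⟩
  intro g hg
  obtain ⟨l, k, hl, hlen, hgk⟩ := D.gen.geod hg
  obtain ⟨l', hl', hp'⟩ := D.gen.gen g hg
  obtain ⟨α, hα, hαl⟩ := exists_geodW D.ms.conn x₀ (g • x₀)
  obtain ⟨f, hf⟩ : ∃ f : ℕ, f = X.G.dist x₀ (g • x₀) := ⟨_, rfl⟩
  rw [← hf] at hαl ⊢
  have cp := D.gen.prod hl.mem
  have ww := D.pwlW hl'
  rw [hp'] at ww
  have wt := D.pwlT hl'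
  rw [hp'] at wt
  obtain ⟨I, hI⟩ : ∃ I : Finset ℕ, I = Finset.Ioo (r₀ + κ) (l.length - (r₀ + κ)) := ⟨_, rfl⟩
  have memI : ∀ i ∈ I, r₀ + κ < i ∧ i + (r₀ + κ) < l.length := by
    intro i hi
    rw [hI, Finset.mem_Ioo] at hi
    omega
  have av : ∀ i ∈ I, ∀ z ∈ tr l.prod (τ x₀), z ∉ Bc Sg a S r₀ (pre l i) := by
    intro i hi
    have hi' := memI i hi
    refine D.avoid hκ (D.gen.pre_comm hl.mem i) cp ?_
    have e1 := hl.lower D.gen (i := i) (j := l.length) (by omega) le_rfl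
    rw [pre_length] at e1
    omega
  have key := wall_thm D.ms D.geom hC (a := a) (g := g) hg.symm D.free (L := Lset a S)
    (fun v => Lset_smul rfl v) ww (D.τW x₀) (fun v hv => D.pwlL hl' hv)
    (fun v hv => ⟨S_Lset (D.τS v hv), ⟨g, hg, v, D.τS v hv, rfl⟩⟩) wt I
    (fun i v => if Rch X x₀ Sg a S r₀ (pre l i) l.prod v then (1 : ZMod 2) else 0)
    (fun i v => h₀ ((pre l i)⁻¹ • v)) (fun i => Zc X Sg a S r₀ (pre l i)) (H := H)
    (fun i hi => D.wall hh1 hh2 (D.gen.pre_comm hl.mem i) cp (av i hi)) ?_ B ?_ (f + 1) hα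
  · rw [hαl, hI, Nat.card_Ioo] at key
    have ls1 : 1 ≤ ls := by
      obtain ⟨s1, hs1⟩ := isW_cons (D.τW x₀)
      rw [hls, hs1]; simp
    have b1 : f + 1 + (f + 1) * (ls - 1) = (f + 1) * ls := by
      obtain ⟨s, hs⟩ : ∃ s : ℕ, ls = s + 1 := ⟨ls - 1, by omega⟩
      rw [hs, Nat.add_sub_cancel]
      ring
    rw [← hls, b1] at key
    have b2 : (l.length - (r₀ + κ) - (r₀ + κ) - 1) * (f + 1) ≤
        (4 * (B * C) * ls ^ 2 * (f + 1)) * (f + 1) := by
      refine key.trans (le_of_eq ?_)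
      ring
    have b3 := Nat.le_of_mul_le_mul_right b2 (by omega)
    have b4 : 2 * (r₀ + κ) + 1 ≤ (2 * (r₀ + κ) + 1) * (f + 1) := Nat.le_mul_of_pos_right _ (by omega)
    rw [← hlen]
    calc l.length ≤ (l.length - (r₀ + κ) - (r₀ + κ) - 1) + (2 * (r₀ + κ) + 1) := by omega
      _ ≤ 4 * (B * C) * ls ^ 2 * (f + 1) + (2 * (r₀ + κ) + 1) * (f + 1) := Nat.add_le_add b3 b4
      _ = _ := by ring
  · intro i hi v hv
    obtain ⟨hi1, hi2⟩ := memI i hi
    obtain ⟨e1, e2⟩ := D.ends hr₀ hκ hl hi1 hi2 v hv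
    constructor
    · show (if _ then (1 : ZMod 2) else 0) = 0
      rw [if_neg e1]
    · show (if _ then (1 : ZMod 2) else 0) = 1
      have e3 : g • v = a ^ k • (l.prod • v) := by
        rw [hgk, ← mul_smul, comm_zpow' cp k]
      rw [e3, if_pos ((D.rch_zpow cp (av i hi) (l.prod • v) k).2 e2)]
  · intro c
    have := D.count (r := r₀) hκ hn h₀ H hl I (fun i hi => by have := memI i hi; omega) c
    rw [← hB] at this
    exact this

end lab

end MSG.FS
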