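import Pool.Agent.Lib.MP_2a6af3_al.C.Est1

/-! Second estimate: `⟨a⟩` is undistorted if `C(a) / ⟨a⟩` is infinite (MP_2a6af3_al, helper40). -/

namespace MSG.FS

open Classical
open MSG.H25.Gr (Ho ho_refl ho_trans ho_congr ho_symm ho_mono ho_isW ho_reverse ho_cancel ho_cat
  ho_of_loop isW_cat isW_reverse isW_single isW_ne isW_cons cat_eq cat_assoc cat_last cat_single
  cat_reverse cat_map mem_cat hom_zero exists_isW)

variable {V : Type} {Γ : Type} [Group Γ] [MulAction Γ V] {G : SimpleGraph V}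

/-- products of at most `n` elements of `Sg` -/
def Wn (Sg : Finset Γ) (n : ℕ) : Set Γ :=
  {p | ∃ l : List Γ, (∀ s ∈ l, s ∈ Sg) ∧ l.length ≤ n ∧ p = l.prod}

theorem Wn_finite (Sg : Finset Γ) (n : ℕ) : (Wn Sg n).Finite := by
  refine ((List.finite_length_le Sg n).image
    (fun l : List Sg => (l.map Subtype.val).prod)).subset ?_
  rintro p ⟨l, hl, hn, rfl⟩
  lift l to List {x // x ∈ Sg} using hl
  refine ⟨l, ?_, rfl⟩
  rw [List.length_map] at hn
  exact hn

theorem Gen.Wn_inv {Sg : Finset Γ} {a : Γ} (h : Gen Sg a) {n : ℕ} {p : Γ} (hp : p ∈ Wn Sg n) :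
    p⁻¹ ∈ Wn Sg n := by
  obtain ⟨l, hl, hn, rfl⟩ := hp
  refine ⟨(l.map (·⁻¹)).reverse, ?_, by simpa using hn, List.prod_inv_reverse l⟩
  intro s hs
  rw [List.mem_reverse, List.mem_map] at hs
  obtain ⟨t, ht, rfl⟩ := hs
  exact h.inv t (hl t ht)

theorem pre_Wn {Sg : Finset Γ} {l : List Γ} (hl : ∀ s ∈ l, s ∈ Sg) {i j n : ℕ} (hij : i ≤ j)
    (hn : j ≤ i + n) : (pre l i)⁻¹ * pre l j ∈ Wn Sg n := by
  rw [pre_mul_drop l hij, inv_mul_cancel_left]
  refine ⟨_, fun s hs => hl s (List.mem_of_mem_take (List.mem_of_mem_drop hs)), ?_, rfl⟩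
  rw [List.length_drop, List.length_take]
  omega

theorem length_pwl {om : Γ → List V} {x₀ : V} {Sg : Finset Γ} {Λ : ℕ}
    (hΛ : ∀ s ∈ Sg, (om s).length ≤ Λ + 1) {l : List Γ} (hl : ∀ s ∈ l, s ∈ Sg) :
    (pwl om x₀ l).length ≤ l.length * Λ + 1 := by
  induction l with
  | nil => simp [pwl]
  | cons s l ih =>
    have h1 := ih (fun t ht => hl t (List.mem_cons_of_mem _ ht))
    have h2 := hΛ s (hl s (by simp))
    rw [pwl, length_cat, length_tr, List.length_cons]
    have h3 : (l.length + 1) * Λ = l.length * Λ + Λ := by ring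
    omega

section lab

variable {X : Cx V} {a : Γ} {x₀ : V} {Sg : Finset Γ} {S : Set V} {om : Γ → List V}
  {τ : V → List V} {r : ℕ}

theorem Dat.pwl_append (D : Dat X a x₀ Sg S om τ) {l m : List Γ} (hl : ∀ s ∈ l, s ∈ Sg)
    (hm : ∀ s ∈ m, s ∈ Sg) :
    pwl om x₀ (l ++ m) = cat (pwl om x₀ l) (tr l.prod (pwl om x₀ m)) := by
  induction l with
  | nil =>
    rw [List.nil_append, List.prod_nil, tr_one]
    exact (cat_single (D.pwlW hm)).symm
  | cons s l ih =>
    have hl' : ∀ t ∈ l, t ∈ Sg := fun t ht => hl t (List.mem_cons_of_mem _ ht)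
    have w1 := isW_tr D.geom.adj s (D.pwlW hl')
    rw [List.cons_append, pwl, ih hl', pwl, List.prod_cons, tr_cat, tr_tr, cat_assoc w1]

/-- filling of one block -/
theorem Dat.block (D : Dat X a x₀ Sg S om τ) {C : ℕ} (hC : CoarseHyp X.G C) {Λ : ℕ}
    (hΛ : ∀ s ∈ Sg, (om s).length ≤ Λ + 1) {k f : ℕ} {α : List V}
    (hα : IsW X.G x₀ (a ^ k • x₀) α) (hαl : α.length = f + 1) {l : List Γ}
    (hl : ∀ s ∈ l, s ∈ Sg) (hlen : l.length = f + 1) :
    ∃ F : Finset V, F.card ≤ C * (2 * ((f + 1) * (Λ + 1))) ^ 2 ∧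
      Tile X.G (F : Set V) l.prod (a ^ k) (pwl om x₀ l) α ∧
      ∀ v ∈ cat (pwl om x₀ l) (tr l.prod α), v ∈ F := by
  have hadj := D.geom.adj
  have cp := D.gen.prod hl
  have hc : l.prod * a ^ k = a ^ k * l.prod := ((show Commute a l.prod from cp).symm.pow_right k).eq
  have ww := D.pwlW hl
  have w1 : IsW X.G x₀ (l.prod • (a ^ k • x₀)) (cat (pwl om x₀ l) (tr l.prod α)) :=
    isW_cat ww (isW_tr hadj _ hα)
  have w2 : IsW X.G x₀ (l.prod • (a ^ k • x₀)) (cat α (tr (a ^ k) (pwl om x₀ l))) := by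
    rw [← mul_smul, hc, mul_smul]
    exact isW_cat hα (isW_tr hadj _ ww)
  obtain ⟨F, hF⟩ := hC.geo _ _ _ _ w1 w2
  refine ⟨F, ?_, ho_of_homA hF.hom, fun v hv => hF.mem v (List.mem_append_left _ hv)⟩
  refine hF.card.trans (Nat.mul_le_mul_left _ (Nat.pow_le_pow_left ?_ 2))
  have h1 := length_pwl (x₀ := x₀) hΛ hl
  rw [hlen] at h1
  rw [length_cat, length_cat, length_tr, length_tr, hαl]
  have h2 : (f + 1) * (Λ + 1) = (f + 1) * Λ + f + 1 := by ring
  have h3 : 1 ≤ (pwl om x₀ l).length := by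
    obtain ⟨s1, hs1⟩ := isW_cons ww
    rw [hs1]; simp
  omega

/-- filling of many blocks -/
theorem Dat.blocks (D : Dat X a x₀ Sg S om τ) {C : ℕ} (hC : CoarseHyp X.G C) {Λ : ℕ}
    (hΛ : ∀ s ∈ Sg, (om s).length ≤ Λ + 1) {k f : ℕ} {α : List V}
    (hα : IsW X.G x₀ (a ^ k • x₀) α) (hαl : α.length = f + 1) (N : ℕ) :
    ∀ l : List Γ, (∀ s ∈ l, s ∈ Sg) → l.length = N * (f + 1) →
    ∃ F : Finset V, F.card ≤ N * (C * (2 * ((f + 1) * (Λ + 1))) ^ 2) + (f + 1) ∧
      Tile X.G (F : Set V) l.prod (a ^ k) (pwl om x₀ l) α ∧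
      ∀ v ∈ cat (pwl om x₀ l) (tr l.prod α), v ∈ F := by
  have hadj := D.geom.adj
  induction N with
  | zero =>
    intro l _ hlen
    rw [Nat.zero_mul] at hlen
    have hl0 := List.length_eq_zero_iff.1 hlen
    subst hl0
    refine ⟨α.toFinset, ?_, ?_, ?_⟩
    · rw [Nat.zero_mul, Nat.zero_add, ← hαl]
      exact List.toFinset_card_le α
    · unfold Tile
      rw [List.prod_nil, tr_one]
      have e1 : cat (pwl om x₀ ([] : List Γ)) α = α := cat_single hα
      have e2 : cat α (tr (a ^ k) (pwl om x₀ ([] : List Γ))) = α := cat_last _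
      rw [e1, e2]
      exact ho_refl _
    · intro v hv
      rw [List.prod_nil, tr_one] at hv
      have e1 : cat (pwl om x₀ ([] : List Γ)) α = α := cat_single hα
      rw [e1] at hv
      exact List.mem_toFinset.2 hv
  | succ N ih =>
    intro l hl hlen
    have hlen' : l.length = (f + 1) + N * (f + 1) := by rw [hlen]; ring
    have ht : ∀ s ∈ l.take (f + 1), s ∈ Sg := fun s hs => hl s (List.mem_of_mem_take hs)
    have hd : ∀ s ∈ l.drop (f + 1), s ∈ Sg := fun s hs => hl s (List.mem_of_mem_drop hs)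
    have lt : (l.take (f + 1)).length = f + 1 := by rw [List.length_take]; omega
    have ld : (l.drop (f + 1)).length = N * (f + 1) := by rw [List.length_drop]; omega
    obtain ⟨F₁, c₁, t₁, m₁⟩ := D.block hC hΛ hα hαl ht lt
    obtain ⟨F₂, c₂, t₂, m₂⟩ := ih _ hd ld
    obtain ⟨p, hp⟩ : ∃ p : Γ, p = (l.take (f + 1)).prod := ⟨_, rfl⟩
    have cp : a * p = p * a := by rw [hp]; exact D.gen.prod ht
    have cq := D.gen.prod hd
    have e1 : l.prod = p * (l.drop (f + 1)).prod := by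
      rw [hp, List.prod_take_mul_prod_drop]
    have e2 : pwl om x₀ l = cat (pwl om x₀ (l.take (f + 1)))
        (tr p (pwl om x₀ (l.drop (f + 1)))) := by
      conv_lhs => rw [← List.take_append_drop (f + 1) l]
      rw [D.pwl_append ht hd, hp]
    have w1 := D.pwlW ht
    rw [← hp] at w1
    have w2 := D.pwlW hd
    refine ⟨F₁ ∪ F₂.image (fun v => p • v), ?_, ?_, ?_⟩
    · have h1 := Finset.card_union_le F₁ (F₂.image (fun v => p • v))
      have h2 : (F₂.image (fun v => p • v)).card ≤ F₂.card := Finset.card_image_le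
      have h3 : (N + 1) * (C * (2 * ((f + 1) * (Λ + 1))) ^ 2) =
        N * (C * (2 * ((f + 1) * (Λ + 1))) ^ 2) + C * (2 * ((f + 1) * (Λ + 1))) ^ 2 := by ring
      omega
    · rw [e1, e2]
      rw [← hp] at t₁
      have h1 : p * a ^ k = a ^ k * p := ((show Commute a p from cp).symm.pow_right k).eq
      have h2 : (l.drop (f + 1)).prod * a ^ k = a ^ k * (l.drop (f + 1)).prod :=
        ((show Commute a _ from cq).symm.pow_right k).eq
      refine Tile.comp hadj h1 h2 w1 w2 hα ?_ ?_ t₁ t₂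
      · intro v hv
        exact Finset.mem_coe.2 (Finset.mem_union_left _ hv)
      · intro v hv
        exact Finset.mem_coe.2 (Finset.mem_union_right _ (Finset.mem_image_of_mem _ hv))
    · intro v hv
      rw [e1, e2] at hv
      have w3 : IsW X.G (p • x₀) (p • ((l.drop (f + 1)).prod • x₀))
          (tr p (pwl om x₀ (l.drop (f + 1)))) := isW_tr hadj p w2
      rw [← tr_tr, cat_assoc w3, ← tr_cat] at hv
      rcases mem_cat hv with h | h
      · refine Finset.mem_union_left _ (m₁ v ?_)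
        unfold cat
        exact List.mem_append_left _ h
      · obtain ⟨u, hu, rfl⟩ := mem_tr.1 h
        exact Finset.mem_union_right _ (Finset.mem_image_of_mem _ (m₂ u hu))

/-- Second estimate. -/
theorem Dat.est2 (D : Dat X a x₀ Sg S om τ) {C : ℕ} (hC : CoarseHyp X.G C)
    (hinf : ∀ n : ℕ, ∃ c, a * c = c * a ∧ n ≤ ell Sg a c) : ∃ K : ℕ,
    ∀ k : ℕ, k ≤ K * (X.G.dist x₀ (a ^ k • x₀) + 1) := by
  have hadj := D.geom.adj
  obtain ⟨r₀, hr₀⟩ := D.bottle
  obtain ⟨κ, hκ⟩ := near_ell D.geom D.gen D.fin D.fin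
  obtain ⟨h₀, H, hH0, hh1, hh2⟩ := D.heights r₀
  obtain ⟨n, hn⟩ := hC.ball 1
  obtain ⟨B, hB⟩ : ∃ B : ℕ, B = n * ((2 * (r₀ + κ) + 1) * (2 * H.toNat + 1)) := ⟨_, rfl⟩
  obtain ⟨Λ, hΛ⟩ : ∃ Λ : ℕ, ∀ s ∈ Sg, (om s).length ≤ Λ + 1 :=
    ⟨Sg.sup (fun s => (om s).length), fun s hs =>
      (Finset.le_sup (f := fun s => (om s).length) hs).trans (Nat.le_succ _)⟩
  -- the bound of the heights on the walks
  obtain ⟨R, hR⟩ : ∃ R : ℕ, ∀ p ∈ Wn Sg (r₀ + κ), ∀ y ∈ S, |h₀ (p • y)| ≤ R := by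
    have hf := ((Wn_finite Sg (r₀ + κ)).prod D.fin).image (fun q : Γ × V => |h₀ (q.1 • q.2)|)
    obtain ⟨R, hR⟩ := hf.bddAbove
    refine ⟨R.toNat, fun p hp y hy => ?_⟩
    have h1 : |h₀ (p • y)| ≤ R := hR ⟨(p, y), ⟨hp, hy⟩, rfl⟩
    exact h1.trans (Int.self_le_toNat R)
  refine ⟨4 * (B * C) * (Λ + 1) ^ 2 + 2 * R, ?_⟩
  intro k
  obtain ⟨α, hα, hαl⟩ := exists_geodW D.ms.conn x₀ (a ^ k • x₀)
  obtain ⟨f, hf⟩ : ∃ f : ℕ, f = X.G.dist x₀ (a ^ k • x₀) := ⟨_, rfl⟩
  rw [← hf] at hαl ⊢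
  -- the homotopy from `α` to the power of `σ`
  obtain ⟨sk, hsk⟩ : ∃ sk : List V, sk = pw a (τ x₀) x₀ k := ⟨_, rfl⟩
  have wsk : IsW X.G x₀ (a ^ k • x₀) sk := by rw [hsk]; exact isW_pw hadj (D.τW x₀) k
  obtain ⟨U, hU⟩ := hC.geo _ _ _ _ hα wsk
  have αU : ∀ v ∈ α, v ∈ (U : Set V) := fun v hv => hU.mem v (List.mem_append_left _ hv)
  have hoU : Ho X.G (U : Set V) α sk := ho_of_homA hU.hom
  obtain ⟨κU, hκU⟩ := near_ell D.geom D.gen (U.finite_toSet) D.fin
  obtain ⟨Q, hQ⟩ : ∃ Q : ℕ, Q = C * (2 * ((f + 1) * (Λ + 1))) ^ 2 := ⟨_, rfl⟩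
  obtain ⟨ρ, hρ⟩ : ∃ ρ : ℕ, ρ = κU + (r₀ + κ) := ⟨_, rfl⟩
  obtain ⟨k', hk'⟩ : ∃ k' : ℕ, k' = ((k : ℤ) - R - R).toNat := ⟨_, rfl⟩
  have main : ∀ N : ℕ, (N * (f + 1)) * k' ≤ (N * Q + (f + 1)) * B + (2 * ρ + 1) * k' := by
    intro N
    -- a long geodesic
    obtain ⟨l, hl, hlen⟩ : ∃ l : List Γ, Geod Sg a l ∧ l.length = N * (f + 1) := by
      obtain ⟨c, hc, hcl⟩ := hinf (N * (f + 1))
      obtain ⟨l, -, hl, hll, -⟩ := D.gen.geod hc
      refine ⟨l.take (N * (f + 1)), hl.take D.gen (by omega), ?_⟩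
      rw [List.length_take]
      omega
    have cp := D.gen.prod hl.mem
    obtain ⟨F, Fc, tF, mF⟩ := D.blocks hC hΛ hα hαl N l hl.mem hlen
    obtain ⟨s, hs⟩ : ∃ s : List V, s = pwl om x₀ l := ⟨_, rfl⟩
    rw [← hs] at tF mF
    have ws : IsW X.G x₀ (l.prod • x₀) s := by rw [hs]; exact D.pwlW hl.mem
    have sL : ∀ v ∈ s, v ∈ Lset a S := by rw [hs]; exact fun v hv => D.pwlL hl.mem hv
    have hgb : a ^ k * l.prod = l.prod * a ^ k := ((show Commute a l.prod from cp).pow_left k).eq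
    have tF' : Tile X.G (F : Set V) (a ^ k) l.prod α s := tF.symm mF
    have PF : ∀ v ∈ cat α (tr (a ^ k) s), v ∈ (F : Set V) := (ho_symm a_homA mF tF).1
    have akc : a * a ^ k = a ^ k * a := ((Commute.refl a).pow_right k).eq
    have skL : ∀ v ∈ sk, v ∈ Lset a S := by
      rw [hsk]
      exact pw_forall (fun v hv => S_Lset (D.τS v hv)) (S_Lset D.x₀S)
        (fun v hv => (Lset_smul rfl v).2 hv) k
    have akL : ∀ v ∈ s, a ^ k • v ∈ Lset a S := fun v hv => (Lset_smul akc v).2 (sL v hv)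
    have tL : Tile X.G (Lset a S) (a ^ k) l.prod sk s := by
      have h1 : Tile X.G (Lset a S) l.prod (a ^ k) s sk := by
        rw [hs, hsk]
        exact (D.pwlT hl.mem).stack hadj cp.symm (D.pwlW hl.mem) (D.τW x₀) k
          (fun j _ y hy => (Lset_smul ((Commute.refl a).pow_right j).eq y).2 hy)
      refine h1.symm ?_
      intro v hv
      rcases mem_cat hv with h | h
      · exact sL v h
      · obtain ⟨u, hu, rfl⟩ := mem_tr.1 h
        exact (Lset_smul cp u).2 (skL u hu)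
    obtain ⟨I, hI⟩ : ∃ I : Finset ℕ, I = Finset.Ioo ρ (l.length - ρ) := ⟨_, rfl⟩
    have memI : ∀ i ∈ I, ρ < i ∧ i + ρ < l.length := by
      intro i hi
      rw [hI, Finset.mem_Ioo] at hi
      omega
    have hcnt : ∀ c : V, ∃ T : Finset (ℕ × ℤ), T.card ≤ B ∧ ∀ i ∈ I, ∀ p : ℤ, ∀ y ∈ Lset a S,
        y ∈ Zc X Sg a S r₀ (pre l i) → Nr X.G c y → |h₀ ((pre l i)⁻¹ • y) - p| ≤ H →
        (i, p) ∈ T := by
      intro c
      have := D.count (r := r₀) hκ hn h₀ H hl I (fun i hi => by have := memI i hi; omega) c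
      rw [← hB] at this
      exact this
    have cover : (I ×ˢ Finset.Ioc (R : ℤ) (k - R)) ⊆ F.biUnion (fun c => (hcnt c).choose) := by
      rintro ⟨i, p⟩ hip
      rw [Finset.mem_product, Finset.mem_Ioc] at hip
      obtain ⟨hi, hp1, hp2⟩ := hip
      simp only at hi hp1 hp2
      by_contra hbad
      have hnot : ∀ c ∈ F, ∀ y ∈ Lset a S, y ∈ Zc X Sg a S r₀ (pre l i) → Nr X.G c y →
          H < |h₀ ((pre l i)⁻¹ • y) - p| := by
        intro c hc y hy hyz hcy
        by_contra hle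
        exact hbad (Finset.mem_biUnion.2 ⟨c, hc, (hcnt c).choose_spec.2 i hi p y hy hyz hcy
          (not_lt.1 hle)⟩)
      obtain ⟨hi1, hi2⟩ := memI i hi
      have ci := D.gen.pre_comm hl.mem i
      have av : ∀ z ∈ tr l.prod (τ x₀), z ∉ Bc Sg a S r₀ (pre l i) := by
        refine D.avoid hκ ci cp ?_
        have e1 := hl.lower D.gen (i := i) (j := l.length) (by omega) le_rfl
        rw [pre_length] at e1
        omega
      have W := D.wall hh1 hh2 ci cp av
      obtain ⟨χ, hχ⟩ : ∃ χ : V → ZMod 2, χ = fun v =>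
        if Rch X x₀ Sg a S r₀ (pre l i) l.prod v then (1 : ZMod 2) else 0 := ⟨_, rfl⟩
      obtain ⟨h, hh⟩ : ∃ h : V → ℤ, h = fun v => h₀ ((pre l i)⁻¹ • v) := ⟨_, rfl⟩
      rw [← hχ, ← hh] at W
      have one_c : a * (1 : Γ) = 1 * a := by simp
      have ends : ∀ v ∈ τ x₀, χ v = 0 ∧ χ (l.prod • v) = 1 := by
        intro v hv
        obtain ⟨e1, e2⟩ := D.ends (i := i) hr₀ hκ hl (by omega) (by omega) v hv
        rw [hχ]
        simp only
        rw [if_neg e1, if_pos e2]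
        exact ⟨rfl, rfl⟩
      have farQ : Far X.G (Lset a S) ((F : Set V) ∪ (U : Set V) ∪
          {v | ∃ u ∈ (U : Set V), l.prod • u = v}) (et χ h p) := by
        intro c hc u hu v hv w hw huv hvw huw hcu
        by_contra hne
        obtain ⟨uz, hup⟩ := W.tri hu hv hw huv hvw huw hne
        rcases hc with (hc | hc) | ⟨c', hc', rfl⟩
        · have := hnot c hc u hu uz hcu
          rw [hh] at hup
          exact absurd this (not_lt.2 hup)
        · obtain ⟨d, hd, t, ht, rfl⟩ := hu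
          have e1 := D.lab hκ ci hd ht uz
          have e2 : ell Sg a ((1 : Γ)⁻¹ * d) ≤ κU := by
            refine hκU 1 d one_c hd c hc t ht 0 ?_
            rw [zpow_zero, one_smul, one_smul]
            exact hcu
          have e3 := hl.lower D.gen (Nat.zero_le i) (by omega)
          rw [pre_zero] at e3
          have e4 := D.gen.tri one_c hd ci
          have e5 := D.gen.sym ci hd
          omega
        · obtain ⟨d, hd, t, ht, rfl⟩ := hu
          have e1 := D.lab hκ ci hd ht uz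
          have e2 : ell Sg a (l.prod⁻¹ * d) ≤ κU := by
            refine hκU l.prod d cp hd c' hc' t ht 0 ?_
            rw [zpow_zero, one_smul]
            exact hcu
          have e3 := hl.lower D.gen (i := i) (j := l.length) (by omega) le_rfl
          rw [pre_length] at e3
          have e4 := D.gen.tri ci hd cp
          have e5 := D.gen.sym cp hd
          omega
      have key := master D.ms.metric D.ms.large D.free hadj (et_symm χ h p) farQ hgb hα wsk ws αU
        hoU (fun v hv => Or.inl (Or.inr hv)) (fun v hv => Or.inr ⟨v, hv, rfl⟩)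
        (fun v hv => Or.inl (Or.inl hv)) PF tF' skL akL tL
      -- heights along `s`
      have hts : ∀ v ∈ s, v ∈ Zc X Sg a S r₀ (pre l i) → |h v| ≤ R := by
        intro v hv hz
        rw [hs] at hv
        obtain ⟨j, hj, y, hy, rfl⟩ := D.mem_pwl hl.mem hv
        have cj := D.gen.pre_comm hl.mem j
        have e1 := D.lab hκ ci cj hy hz
        have e2 := D.gen.sym ci cj
        rw [hh]
        simp only
        rw [← mul_smul]
        refine hR _ ?_ y hy
        rcases le_total i j with hij | hij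
        · have e3 := hl.lower D.gen hij hj
          exact pre_Wn hl.mem hij (by omega)
        · have e3 := hl.lower D.gen hij (by omega)
          have e4 := D.gen.Wn_inv (pre_Wn (Sg := Sg) (n := r₀ + κ) hl.mem hij (by omega))
          rwa [mul_inv_rev, inv_inv] at e4
      have s1 : sumE (et χ h p) s = χ x₀ + χ (l.prod • x₀) := by
        refine sumE_tel ws ?_
        intro u hu v hv huv
        by_cases e : χ u = χ v
        · rw [et_eq e, e]
          exact (add_self_z _).symm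
        · have zu := W.zn u (sL u hu) v (sL v hv) huv e
          have zv := W.zn v (sL v hv) u (sL u hu) huv.symm (Ne.symm e)
          have b1 := abs_le.1 (hts u hu zu)
          have b2 := abs_le.1 (hts v hv zv)
          exact et_lo ⟨by omega, by omega⟩
      have xτ : x₀ ∈ τ x₀ := by
        obtain ⟨s1, hs1⟩ := isW_cons (D.τW x₀)
        rw [hs1]; simp
      have s2 : sumE (et χ h p) (tr (a ^ k) s) = 0 := by
        refine sumE_null (isW_tr hadj _ ws) ?_
        intro u hu v hv huv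
        obtain ⟨u', hu', rfl⟩ := mem_tr.1 hu
        obtain ⟨v', hv', rfl⟩ := mem_tr.1 hv
        by_cases e : χ (a ^ k • u') = χ (a ^ k • v')
        · exact et_eq e
        · have zu := W.zn _ (akL u' hu') _ (akL v' hv') huv e
          have hp := W.pow (fun v => Lset_smul rfl v) k (sL u' hu')
          have zu' := hp.1.1 zu
          have b1 := abs_le.1 (hts u' hu' zu')
          have b2 := hp.2 zu'
          exact et_hi (Or.inl (by omega))
      have cst : ∀ v ∈ sk, χ v = 0 ∧ χ (l.prod • v) = 1 := by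
        have hst : ∀ v, (v ∈ Lset a S ∧ χ v = 0 ∧ χ (l.prod • v) = 1) →
            (a • v ∈ Lset a S ∧ χ (a • v) = 0 ∧ χ (l.prod • (a • v)) = 1) := by
          rintro v ⟨h1, h2, h3⟩
          refine ⟨(Lset_smul rfl v).2 h1, by rw [W.chi v h1, h2], ?_⟩
          rw [← mul_smul, ← cp, mul_smul, W.chi _ ((Lset_smul cp v).2 h1), h3]
        have := pw_forall (P := fun v => v ∈ Lset a S ∧ χ v = 0 ∧ χ (l.prod • v) = 1)
          (fun v hv => ⟨S_Lset (D.τS v hv), ends v hv⟩) ⟨S_Lset D.x₀S, ends x₀ xτ⟩ hst k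
        rw [← hsk] at this
        exact fun v hv => (this v hv).2
      have s3 : sumE (et χ h p) sk = 0 := by
        refine sumE_null wsk ?_
        intro u hu v hv _
        exact et_eq ((cst u hu).1.trans (cst v hv).1.symm)
      have s4 : sumE (et χ h p) (tr l.prod sk) = 0 := by
        refine sumE_null (isW_tr hadj _ wsk) ?_
        intro u hu v hv _
        obtain ⟨u', hu', rfl⟩ := mem_tr.1 hu
        obtain ⟨v', hv', rfl⟩ := mem_tr.1 hv
        exact et_eq ((cst u' hu').2.trans (cst v' hv').2.symm)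
      rw [s1, s2, s3, s4, (ends x₀ xτ).1, (ends x₀ xτ).2] at key
      simp at key
    have hcount := Finset.card_le_card cover
    rw [Finset.card_product, Int.card_Ioc] at hcount
    have h2 : (F.biUnion (fun c => (hcnt c).choose)).card ≤ F.card * B :=
      Finset.card_biUnion_le_card_mul _ _ _ (fun c _ => (hcnt c).choose_spec.1)
    have h3 : F.card * B ≤ (N * Q + (f + 1)) * B := by
      refine Nat.mul_le_mul_right _ ?_
      rw [hQ]
      exact Fc
    have h4 : ((k : ℤ) - R - R).toNat = k' := hk'.symm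
    have hIc : I.card = N * (f + 1) - ρ - ρ - 1 := by rw [hI, Nat.card_Ioo, hlen]
    rw [h4, hIc] at hcount
    have h5 : N * (f + 1) ≤ (N * (f + 1) - ρ - ρ - 1) + (2 * ρ + 1) := by omega
    calc N * (f + 1) * k' ≤ ((N * (f + 1) - ρ - ρ - 1) + (2 * ρ + 1)) * k' :=
          Nat.mul_le_mul_right _ h5
      _ = (N * (f + 1) - ρ - ρ - 1) * k' + (2 * ρ + 1) * k' := by ring
      _ ≤ (N * Q + (f + 1)) * B + (2 * ρ + 1) * k' := by
          have := hcount.trans (h2.trans h3)
          omega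
  have lim : (f + 1) * k' ≤ Q * B := by
    by_contra hlt
    rw [not_le] at hlt
    obtain ⟨N, hN⟩ : ∃ N : ℕ, N = (f + 1) * B + (2 * ρ + 1) * k' + 1 := ⟨_, rfl⟩
    have h1 := main N
    have h2 : (Q * B + 1) * N ≤ (f + 1) * k' * N := Nat.mul_le_mul_right _ hlt
    have h3 : N * (f + 1) * k' = (f + 1) * k' * N := by ring
    have h4 : (N * Q + (f + 1)) * B = Q * B * N + (f + 1) * B := by ring
    have h5 : (Q * B + 1) * N = Q * B * N + N := by ring
    omega
  have b1 : k' * (f + 1) ≤ (4 * (B * C) * (Λ + 1) ^ 2 * (f + 1)) * (f + 1) := by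
    calc k' * (f + 1) = (f + 1) * k' := Nat.mul_comm _ _
      _ ≤ Q * B := lim
      _ = _ := by rw [hQ]; ring
  have b2 := Nat.le_of_mul_le_mul_right b1 (by omega)
  have b3 : 2 * R ≤ 2 * R * (f + 1) := Nat.le_mul_of_pos_right _ (by omega)
  have b4 : k ≤ k' + 2 * R := by omega
  calc k ≤ k' + 2 * R := b4
    _ ≤ 4 * (B * C) * (Λ + 1) ^ 2 * (f + 1) + 2 * R * (f + 1) := Nat.add_le_add b2 b3
    _ = _ := by ring

end lab

end MSG.FS
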