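import Pool.Agent.Lib.MP_2a6af3_al.C.Est2
import Pool.Agent.Lib.MP_2a6af3_al.Z.Group

/-! Centralizers of elements of infinite order are undistorted unless they are virtually cyclic
(MP_2a6af3_al, helper40). -/

namespace MSG.FS

open Classical
open MSG.H25.Gr (Ho ho_refl ho_trans ho_congr ho_symm ho_mono ho_isW ho_reverse ho_cancel ho_cat
  ho_of_loop isW_cat isW_reverse isW_single isW_ne isW_cons cat_eq cat_assoc cat_last cat_single
  cat_reverse cat_map mem_cat hom_zero exists_isW)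

variable {V : Type} {Γ : Type} [Group Γ] [MulAction Γ V] {G : SimpleGraph V}

theorem list_of_closure {s : Set Γ} {x : Γ} (hx : x ∈ Subgroup.closure s) :
    ∃ l : List Γ, (∀ y ∈ l, y ∈ s ∨ y⁻¹ ∈ s) ∧ l.prod = x := by
  rw [← Subgroup.mem_toSubmonoid, Subgroup.closure_toSubmonoid] at hx
  obtain ⟨l, hl, h⟩ := Submonoid.exists_list_of_mem_closure hx
  exact ⟨l, fun y hy => hl y hy, h⟩

/-- existence of the data -/
theorem dat_ex {X : Cx V} (hMS : X.IsMS) (hG : X.IsGeom Γ) {C : ℕ} (hC : CoarseHyp X.G C) {a : Γ}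
    (ha : ∀ n : ℤ, a ^ n = 1 → n = 0) (hfg : (Subgroup.centralizer {a}).FG) (x₀ : V) :
    ∃ (Sg : Finset Γ) (S : Set V) (om : Γ → List V) (τ : V → List V), Dat X a x₀ Sg S om τ := by
  have hadj := hG.adj
  have hF : FreeAut X (MulAction.toPerm a) := (a_proper V X Γ hG).2 a ha
  obtain ⟨T, hT⟩ := hfg
  have memC : ∀ c : Γ, c ∈ Subgroup.centralizer {a} ↔ a * c = c * a := by
    intro c
    rw [Subgroup.mem_centralizer_singleton_iff]
    exact eq_comm
  obtain ⟨Sg, hSg⟩ : ∃ Sg : Finset Γ, Sg = T ∪ T.image (·⁻¹) := ⟨_, rfl⟩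
  have hgen : Gen Sg a := by
    refine ⟨?_, ?_, ?_⟩
    · intro s hs
      rw [← memC]
      rw [hSg, Finset.mem_union, Finset.mem_image] at hs
      rcases hs with hs | ⟨t, ht, rfl⟩
      · rw [← hT]
        exact Subgroup.subset_closure hs
      · rw [← hT]
        exact inv_mem (Subgroup.subset_closure ht)
    · intro s hs
      rw [hSg, Finset.mem_union, Finset.mem_image] at hs ⊢
      rcases hs with hs | ⟨t, ht, rfl⟩
      · exact Or.inr ⟨s, hs, rfl⟩
      · left
        rwa [inv_inv]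
    · intro c hc
      rw [← memC, ← hT] at hc
      obtain ⟨l, hl, hp⟩ := list_of_closure hc
      refine ⟨l, fun s hs => ?_, hp⟩
      rw [hSg, Finset.mem_union, Finset.mem_image]
      rcases hl s hs with h | h
      · exact Or.inl h
      · exact Or.inr ⟨s⁻¹, h, inv_inv s⟩
  choose om hom using fun s : Γ => exists_isW hMS.conn x₀ (s • x₀)
  choose τ hτ using fun v : V => exists_isW hMS.conn v (a • v)
  -- fillings of the tiles
  have tile : ∀ s ∈ Sg, ∃ F : Finset V, Tile X.G (F : Set V) s a (om s) (τ x₀) := by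
    intro s hs
    have w1 : IsW X.G x₀ (s • (a • x₀)) (cat (om s) (tr s (τ x₀))) :=
      isW_cat (hom s) (isW_tr hadj s (hτ x₀))
    have w2 : IsW X.G x₀ (s • (a • x₀)) (cat (τ x₀) (tr a (om s))) := by
      rw [← mul_smul, ← hgen.comm s hs, mul_smul]
      exact isW_cat (hτ x₀) (isW_tr hadj a (hom s))
    obtain ⟨F, hF⟩ := hC.geo _ _ _ _ w1 w2
    exact ⟨F, ho_of_homA hF.hom⟩
  have tile' : ∀ s : Γ, ∃ F : Finset V, s ∈ Sg → Tile X.G (F : Set V) s a (om s) (τ x₀) := by
    intro s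
    by_cases hs : s ∈ Sg
    · obtain ⟨F, hF⟩ := tile s hs
      exact ⟨F, fun _ => hF⟩
    · exact ⟨∅, fun h => absurd h hs⟩
  choose F hF' using tile'
  obtain ⟨S, hS⟩ : ∃ S : Set V, S = {x₀} ∪ {v | v ∈ τ x₀} ∪
    ⋃ s ∈ (Sg : Set Γ), ({v | v ∈ om s} ∪ (F s : Set V)) := ⟨_, rfl⟩
  refine ⟨Sg, S, om, τ, hMS, hG, hF, hgen, ?_, ?_, fun s _ => hom s, ?_, hτ, ?_, ?_⟩
  · rw [hS]
    exact ((Set.finite_singleton x₀).union (List.finite_toSet _)).union
      (Sg.finite_toSet.biUnion (fun s _ => (List.finite_toSet _).union (F s).finite_toSet))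
  · rw [hS]
    exact Or.inl (Or.inl rfl)
  · intro s hs v hv
    rw [hS]
    exact Or.inr (Set.mem_biUnion (show s ∈ (Sg : Set Γ) from hs) (Or.inl hv))
  · intro v hv
    rw [hS]
    exact Or.inl (Or.inr hv)
  · intro s hs
    refine (hF' s hs).mono ?_
    intro v hv
    refine S_Lset ?_
    rw [hS]
    exact Or.inr (Set.mem_biUnion (show s ∈ (Sg : Set Γ) from hs) (Or.inr hv))

/-- Centralizers of elements of infinite order are undistorted unless they are virtually cyclic. -/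
theorem cent_und (Γ : Type) [Group Γ] (hΓ : IsMSGroup Γ) (a : Γ) (ha : ¬ IsOfFinOrder a)
    (hinf : (Subgroup.zpowers a).relIndex (Subgroup.centralizer {a}) = 0) :
    ∃ T : Finset (Subgroup.centralizer {a}), Subgroup.closure (T : Set (Subgroup.centralizer {a})) =
      ⊤ ∧ ∀ S : Finset Γ, ∃ c : ℕ, ∀ (l : List Γ) (g : Subgroup.centralizer {a}),
        (∀ s ∈ l, s ∈ S ∨ s⁻¹ ∈ S) → l.prod = (g : Γ) → Wd T (c * l.length) g := by
  have hi := (infO_iff a).2 ha
  have hfg := (a_thm2 Γ hΓ).1 a hi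
  obtain ⟨V, X, _, hMS, hG⟩ := hΓ
  obtain ⟨C, hC⟩ := f_coarse V X Γ hMS hG
  haveI : Nonempty V := hMS.conn.nonempty
  obtain ⟨x₀⟩ := this
  obtain ⟨Sg, S₀, om, τ, D⟩ := dat_ex hMS hG hC hi hfg x₀
  have memC : ∀ c : Γ, c ∈ Subgroup.centralizer {a} ↔ a * c = c * a := by
    intro c
    rw [Subgroup.mem_centralizer_singleton_iff]
    exact eq_comm
  -- the length is unbounded
  have hunb : ∀ n : ℕ, ∃ c, a * c = c * a ∧ n ≤ ell Sg a c := by
    intro n
    by_contra hno
    push Not at hno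
    have hfin := Wn_finite Sg n
    have hf' : {p : Γ | p ∈ Wn Sg n ∧ p ∈ Subgroup.centralizer {a}}.Finite :=
      hfin.subset (fun p hp => hp.1)
    have hf : Finite {p : Γ // p ∈ Wn Sg n ∧ p ∈ Subgroup.centralizer {a}} := hf'
    have hsurj : Function.Surjective (fun p : {p : Γ // p ∈ Wn Sg n ∧
        p ∈ Subgroup.centralizer {a}} => (QuotientGroup.mk (⟨p.1, p.2.2⟩ :
          Subgroup.centralizer {a}) : Subgroup.centralizer {a} ⧸
            (Subgroup.zpowers a).subgroupOf (Subgroup.centralizer {a}))) := by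
      intro q
      obtain ⟨c, rfl⟩ := QuotientGroup.mk_surjective q
      have hc := (memC c).1 c.2
      obtain ⟨l, hl, hln, k, hk⟩ := D.gen.spec hc
      have hlt := hno c hc
      have pc : l.prod ∈ Subgroup.centralizer {a} := (memC _).2 (D.gen.prod hl)
      refine ⟨⟨l.prod, ⟨l, hl, by omega, rfl⟩, pc⟩, ?_⟩
      rw [QuotientGroup.eq]
      rw [Subgroup.mem_subgroupOf]
      refine Subgroup.mem_zpowers_iff.2 ⟨k, ?_⟩
      show a ^ k = (l.prod)⁻¹ * (c : Γ)
      rw [hk, inv_mul_cancel_left]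
    have hq := Finite.of_surjective _ hsurj
    have : Nat.card (Subgroup.centralizer {a} ⧸
      (Subgroup.zpowers a).subgroupOf (Subgroup.centralizer {a})) ≠ 0 := Nat.card_pos.ne'
    exact this hinf
  obtain ⟨K₁, hK₁⟩ := D.est1 hC
  obtain ⟨K₂, hK₂⟩ := D.est2 hC hunb
  obtain ⟨D₁, hD₁⟩ := disp_le hMS hG x₀ Sg
  have haC : a ∈ Subgroup.centralizer {a} := (memC a).2 rfl
  obtain ⟨T, hT⟩ : ∃ T : Finset (Subgroup.centralizer {a}), T =
    (Sg ∪ {a}).subtype (fun g => g ∈ Subgroup.centralizer {a}) := ⟨_, rfl⟩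
  have aT : (⟨a, haC⟩ : Subgroup.centralizer {a}) ∈ T := by
    rw [hT, Finset.mem_subtype]
    simp
  have lift : ∀ l : List Γ, (∀ s ∈ l, s ∈ Sg) → ∃ g : Subgroup.centralizer {a},
      (g : Γ) = l.prod ∧ Wd T l.length g := by
    intro l
    induction l with
    | nil => intro _; exact ⟨1, by simp, Wd.one⟩
    | cons s l ih =>
      intro hl
      obtain ⟨g, hg, hw⟩ := ih (fun t ht => hl t (List.mem_cons_of_mem _ ht))
      have hs : s ∈ Sg := hl s (by simp)
      have hsC : s ∈ Subgroup.centralizer {a} := (memC s).2 (D.gen.comm s hs)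
      have sT : (⟨s, hsC⟩ : Subgroup.centralizer {a}) ∈ T := by
        rw [hT, Finset.mem_subtype]
        exact Finset.mem_union_left _ hs
      refine ⟨⟨s, hsC⟩ * g, ?_, ?_⟩
      · rw [List.prod_cons, Subgroup.coe_mul, hg]
      · rw [List.length_cons, Nat.add_comm]
        exact (Wd.of_mem sT).mul hw
  have dec : ∀ g : Subgroup.centralizer {a}, ∃ (l : List Γ) (k : ℤ), (∀ s ∈ l, s ∈ Sg) ∧
      l.length = ell Sg a g ∧ (g : Γ) = l.prod * a ^ k ∧ Wd T (l.length + k.natAbs) g := by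
    intro g
    obtain ⟨l, k, hl, hlen, hk⟩ := D.gen.geod ((memC g).1 g.2)
    obtain ⟨g', hg', hw⟩ := lift l hl.mem
    refine ⟨l, k, hl.mem, hlen, hk, ?_⟩
    have e : g = g' * ⟨a, haC⟩ ^ k := by
      apply Subtype.ext
      rw [hk, Subgroup.coe_mul, Subgroup.coe_zpow, hg']
    rw [e]
    exact hw.mul (Wd.zpow aT k)
  refine ⟨T, ?_, ?_⟩
  · rw [eq_top_iff]
    intro g _
    obtain ⟨l, k, -, -, -, l', hl', hp, -⟩ := dec g
    rw [← hp]
    refine list_prod_mem ?_
    intro t ht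
    rcases hl' t ht with h | h
    · exact Subgroup.subset_closure h
    · have h1 : t⁻¹ ∈ Subgroup.closure (T : Set (Subgroup.centralizer {a})) :=
        Subgroup.subset_closure h
      exact (Subgroup.inv_mem_iff _).1 h1
  · intro S
    obtain ⟨D₂, hD₂⟩ := disp_le hMS hG x₀ S
    refine ⟨(K₁ + K₂ * (D₁ * K₁ + 1)) * (D₂ + 1), ?_⟩
    intro l g hl hg
    rcases Nat.eq_zero_or_pos l.length with h0 | h0
    · have hl0 : l = [] := List.length_eq_zero_iff.1 h0
      rw [hl0, List.prod_nil] at hg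
      have : g = 1 := Subtype.ext hg.symm
      rw [this]
      exact Wd.one.mono (Nat.zero_le _)
    · obtain ⟨l', k, hl', hlen, hk, hw⟩ := dec g
      refine hw.mono ?_
      have hgc := (memC g).1 g.2
      obtain ⟨d, hd⟩ : ∃ d : ℕ, d = X.G.dist x₀ ((g : Γ) • x₀) := ⟨_, rfl⟩
      have e1 : l'.length ≤ K₁ * (d + 1) := by
        rw [hlen, hd]
        exact hK₁ g hgc
      have hsm := F75.dist_smul hG hMS.conn
      have d1 : X.G.dist x₀ (a ^ k • x₀) ≤ D₁ * l'.length + d := by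
        have h1 := hsm l'.prod x₀ (a ^ k • x₀)
        rw [← mul_smul, ← hk] at h1
        rw [← h1]
        have h2 := hMS.conn.dist_triangle (u := l'.prod • x₀) (v := x₀) (w := (g : Γ) • x₀)
        have h3 := hD₁ l' (fun s hs => Or.inl (hl' s hs))
        rw [SimpleGraph.dist_comm] at h3
        omega
      have d2 : X.G.dist x₀ (a ^ k.natAbs • x₀) = X.G.dist x₀ (a ^ k • x₀) := by
        rcases Int.eq_nat_or_neg k with ⟨n, rfl | rfl⟩
        · rw [Int.natAbs_natCast, zpow_natCast]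
        · rw [Int.natAbs_neg, Int.natAbs_natCast, zpow_neg, zpow_natCast]
          have h1 := hsm (a ^ n) x₀ ((a ^ n)⁻¹ • x₀)
          rw [smul_inv_smul] at h1
          rw [← h1, SimpleGraph.dist_comm]
      have e2 := hK₂ k.natAbs
      rw [d2] at e2
      have e3 : d ≤ D₂ * l.length := by
        have := hD₂ l hl
        rw [hg, ← hd] at this
        exact this
      have e4 : d + 1 ≤ (D₂ + 1) * l.length := by
        have : (D₂ + 1) * l.length = D₂ * l.length + l.length := by ring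
        omega
      calc l'.length + k.natAbs ≤ K₁ * (d + 1) + K₂ * (D₁ * l'.length + d + 1) :=
            Nat.add_le_add e1 (e2.trans (Nat.mul_le_mul_left _ (by omega)))
        _ ≤ K₁ * (d + 1) + K₂ * (D₁ * (K₁ * (d + 1)) + (d + 1)) := by
            refine Nat.add_le_add le_rfl (Nat.mul_le_mul_left _ ?_)
            have := Nat.mul_le_mul_left D₁ e1
            omega
        _ = (K₁ + K₂ * (D₁ * K₁ + 1)) * (d + 1) := by ring
        _ ≤ (K₁ + K₂ * (D₁ * K₁ + 1)) * ((D₂ + 1) * l.length) := Nat.mul_le_mul_left _ e4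
        _ = _ := by ring

end MSG.FS
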