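import Mathlib

/-! Word length in the centralizer of `a` modulo `⟨a⟩` (MP_2a6af3_al, helper40). -/

namespace MSG.FS

open Classical

variable {Γ : Type} [Group Γ]

/-- `c` is a product of at most `n` elements of `Sg` and a power of `a` -/
def Ln (Sg : Finset Γ) (a : Γ) (n : ℕ) (c : Γ) : Prop :=
  ∃ l : List Γ, (∀ s ∈ l, s ∈ Sg) ∧ l.length ≤ n ∧ ∃ k : ℤ, c = l.prod * a ^ k

/-- `Sg` is a symmetric generating set of the centralizer of `a` -/
structure Gen (Sg : Finset Γ) (a : Γ) : Prop where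
  comm : ∀ s ∈ Sg, a * s = s * a
  inv : ∀ s ∈ Sg, s⁻¹ ∈ Sg
  gen : ∀ c, a * c = c * a → ∃ l : List Γ, (∀ s ∈ l, s ∈ Sg) ∧ l.prod = c

/-- length modulo `⟨a⟩` -/
noncomputable def ell (Sg : Finset Γ) (a c : Γ) : ℕ := sInf {n | Ln Sg a n c}

variable {Sg : Finset Γ} {a : Γ}

theorem Gen.prod (h : Gen Sg a) {l : List Γ} (hl : ∀ s ∈ l, s ∈ Sg) :
    a * l.prod = l.prod * a := by
  induction l with
  | nil => simp
  | cons s l ih =>
    have h1 := h.comm s (hl s (by simp))
    have h2 := ih (fun t ht => hl t (List.mem_cons_of_mem _ ht))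
    rw [List.prod_cons, ← mul_assoc, h1, mul_assoc, h2, mul_assoc]

theorem comm_zpow' {c : Γ} (h : a * c = c * a) (k : ℤ) : a ^ k * c = c * a ^ k :=
  ((show Commute a c from h).zpow_left k).eq

theorem Ln.comm (h : Gen Sg a) {n : ℕ} {c : Γ} (hc : Ln Sg a n c) : a * c = c * a := by
  obtain ⟨l, hl, -, k, rfl⟩ := hc
  rw [← mul_assoc, h.prod hl, mul_assoc, mul_assoc, (Commute.refl a).zpow_right k |>.eq]

theorem Ln.mul (h : Gen Sg a) {m n : ℕ} {c d : Γ} (hc : Ln Sg a m c) (hd : Ln Sg a n d) :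
    Ln Sg a (m + n) (c * d) := by
  obtain ⟨l, hl, hm, k, rfl⟩ := hc
  obtain ⟨l', hl', hn, k', rfl⟩ := hd
  refine ⟨l ++ l', ?_, by rw [List.length_append]; omega, k + k', ?_⟩
  · intro s hs
    rcases List.mem_append.1 hs with hs | hs
    · exact hl s hs
    · exact hl' s hs
  · rw [List.prod_append, zpow_add]
    have h1 := comm_zpow' (h.prod hl') k
    calc l.prod * a ^ k * (l'.prod * a ^ k') = l.prod * (a ^ k * l'.prod) * a ^ k' := by group
      _ = l.prod * (l'.prod * a ^ k) * a ^ k' := by rw [h1]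
      _ = _ := by group

theorem Ln.inv (h : Gen Sg a) {n : ℕ} {c : Γ} (hc : Ln Sg a n c) : Ln Sg a n c⁻¹ := by
  obtain ⟨l, hl, hm, k, rfl⟩ := hc
  refine ⟨(l.map (·⁻¹)).reverse, ?_, by simpa using hm, -k, ?_⟩
  · intro s hs
    rw [List.mem_reverse, List.mem_map] at hs
    obtain ⟨t, ht, rfl⟩ := hs
    exact h.inv t (hl t ht)
  · rw [mul_inv_rev, ← List.prod_inv_reverse, ← zpow_neg]
    have h1 := h.prod hl
    have h2 : a * l.prod⁻¹ = l.prod⁻¹ * a := ((show Commute a l.prod from h1).inv_right).eq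
    exact comm_zpow' h2 (-k)

theorem Ln.mono {m n : ℕ} (hmn : m ≤ n) {c : Γ} (hc : Ln Sg a m c) : Ln Sg a n c := by
  obtain ⟨l, hl, hm, k, h⟩ := hc
  exact ⟨l, hl, hm.trans hmn, k, h⟩

theorem ell_le {n : ℕ} {c : Γ} (hc : Ln Sg a n c) : ell Sg a c ≤ n := Nat.sInf_le hc

theorem Gen.ex (h : Gen Sg a) {c : Γ} (hc : a * c = c * a) : ∃ n, Ln Sg a n c := by
  obtain ⟨l, hl, hp⟩ := h.gen c hc
  exact ⟨l.length, l, hl, le_rfl, 0, by simp [hp]⟩

theorem Gen.spec (h : Gen Sg a) {c : Γ} (hc : a * c = c * a) : Ln Sg a (ell Sg a c) c :=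
  Nat.sInf_mem (h.ex hc)

theorem Gen.ell_mul (h : Gen Sg a) {c d : Γ} (hc : a * c = c * a) (hd : a * d = d * a) :
    ell Sg a (c * d) ≤ ell Sg a c + ell Sg a d := ell_le ((h.spec hc).mul h (h.spec hd))

theorem Gen.ell_inv (h : Gen Sg a) {c : Γ} (hc : a * c = c * a) :
    ell Sg a c⁻¹ = ell Sg a c := by
  have hc' : a * c⁻¹ = c⁻¹ * a := ((show Commute a c from hc).inv_right).eq
  refine le_antisymm (ell_le ((h.spec hc).inv h)) ?_
  have := ell_le ((h.spec hc').inv h)
  rwa [inv_inv] at this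

theorem ell_apow_le {n : ℕ} {c : Γ} (k : ℤ) (hc : Ln Sg a n c) : Ln Sg a n (c * a ^ k) := by
  obtain ⟨l, hl, hm, k', rfl⟩ := hc
  exact ⟨l, hl, hm, k' + k, by rw [zpow_add, mul_assoc]⟩

theorem ell_apow (c : Γ) (k : ℤ) : ell Sg a (c * a ^ k) = ell Sg a c := by
  have : {n | Ln Sg a n (c * a ^ k)} = {n | Ln Sg a n c} := by
    ext n
    constructor
    · intro h
      have h1 := ell_apow_le (-k) h
      rwa [mul_assoc, ← zpow_add, add_neg_cancel, zpow_zero, mul_one] at h1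
    · exact ell_apow_le k
  unfold ell
  rw [this]

theorem ell_word {l : List Γ} (hl : ∀ s ∈ l, s ∈ Sg) : ell Sg a l.prod ≤ l.length :=
  ell_le ⟨l, hl, le_rfl, 0, by simp⟩

/-- geodesic words -/
structure Geod (Sg : Finset Γ) (a : Γ) (l : List Γ) : Prop where
  mem : ∀ s ∈ l, s ∈ Sg
  len : ell Sg a l.prod = l.length

theorem Gen.geod (h : Gen Sg a) {c : Γ} (hc : a * c = c * a) :
    ∃ (l : List Γ) (k : ℤ), Geod Sg a l ∧ l.length = ell Sg a c ∧ c = l.prod * a ^ k := by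
  obtain ⟨l, hl, hm, k, hk⟩ := h.spec hc
  have h1 : ell Sg a c = ell Sg a l.prod := by
    conv_lhs => rw [hk]
    exact ell_apow _ _
  have h2 := ell_word (a := a) hl
  have h3 : l.length = ell Sg a c := by omega
  exact ⟨l, k, ⟨hl, by omega⟩, h3, hk⟩

/-- the `i`-th vertex of a word -/
def pre (l : List Γ) (i : ℕ) : Γ := (l.take i).prod

theorem pre_zero (l : List Γ) : pre l 0 = 1 := by simp [pre]

theorem pre_length (l : List Γ) : pre l l.length = l.prod := by simp [pre]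

theorem Gen.pre_comm (h : Gen Sg a) {l : List Γ} (hl : ∀ s ∈ l, s ∈ Sg) (i : ℕ) :
    a * pre l i = pre l i * a := h.prod (fun s hs => hl s (List.mem_of_mem_take hs))

theorem pre_mul_drop (l : List Γ) {i j : ℕ} (hij : i ≤ j) :
    pre l j = pre l i * ((l.take j).drop i).prod := by
  unfold pre
  have h1 : (l.take j).take i = l.take i := by rw [List.take_take, min_eq_left hij]
  rw [← h1, List.prod_take_mul_prod_drop]

theorem pre_prod (l : List Γ) (i : ℕ) : pre l i * (l.drop i).prod = l.prod :=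
  List.prod_take_mul_prod_drop l i

theorem ell_pre_le (h : Gen Sg a) {l : List Γ} (hl : ∀ s ∈ l, s ∈ Sg) {i j : ℕ} (hij : i ≤ j) :
    ell Sg a ((pre l i)⁻¹ * pre l j) ≤ j - i := by
  rw [pre_mul_drop l hij, inv_mul_cancel_left]
  refine (ell_word (fun s hs => hl s (List.mem_of_mem_take (List.mem_of_mem_drop hs)))).trans ?_
  rw [List.length_drop, List.length_take]
  omega

theorem comm_inv_mul {c d : Γ} (hc : a * c = c * a) (hd : a * d = d * a) :
    a * (c⁻¹ * d) = c⁻¹ * d * a :=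
  (((show Commute a c from hc).inv_right).mul_right (show Commute a d from hd)).eq

theorem comm_mul' {c d : Γ} (hc : a * c = c * a) (hd : a * d = d * a) :
    a * (c * d) = c * d * a :=
  ((show Commute a c from hc).mul_right (show Commute a d from hd)).eq

theorem Geod.lower (h : Gen Sg a) {l : List Γ} (hl : Geod Sg a l) {i j : ℕ} (hij : i ≤ j)
    (hj : j ≤ l.length) : j ≤ i + ell Sg a ((pre l i)⁻¹ * pre l j) := by
  have ci := h.pre_comm hl.mem i
  have cj := h.pre_comm hl.mem j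
  have hd : ∀ s ∈ l.drop j, s ∈ Sg := fun s hs => hl.mem s (List.mem_of_mem_drop hs)
  have e : l.prod = pre l i * (((pre l i)⁻¹ * pre l j) * (l.drop j).prod) := by
    rw [← mul_assoc, mul_inv_cancel_left, pre_prod]
  have c1 := comm_inv_mul ci cj
  have h1 := h.ell_mul ci (comm_mul' c1 (h.prod hd))
  have h2 := h.ell_mul c1 (h.prod hd)
  rw [← e, hl.len] at h1
  have h3 : ell Sg a (pre l i) ≤ i := by
    have := ell_pre_le h hl.mem (Nat.zero_le i)
    rw [pre_zero, inv_one, one_mul] at this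
    omega
  have h4 := ell_word (a := a) hd
  rw [List.length_drop] at h4
  omega

theorem ell_pre_symm (h : Gen Sg a) {l : List Γ} (hl : ∀ s ∈ l, s ∈ Sg) (i j : ℕ) :
    ell Sg a ((pre l i)⁻¹ * pre l j) = ell Sg a ((pre l j)⁻¹ * pre l i) := by
  have := h.ell_inv (comm_inv_mul (h.pre_comm hl i) (h.pre_comm hl j))
  rw [mul_inv_rev, inv_inv] at this
  exact this.symm

/-- prefixes of geodesic words are geodesic -/
theorem Geod.take (h : Gen Sg a) {l : List Γ} (hl : Geod Sg a l) {j : ℕ} (hj : j ≤ l.length) :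
    Geod Sg a (l.take j) := by
  have hm : ∀ s ∈ l.take j, s ∈ Sg := fun s hs => hl.mem s (List.mem_of_mem_take hs)
  refine ⟨hm, ?_⟩
  have h1 := hl.lower h (Nat.zero_le j) hj
  rw [pre_zero, inv_one, one_mul, zero_add] at h1
  have h2 := ell_word (a := a) hm
  have h3 : (l.take j).length = j := by rw [List.length_take]; omega
  rw [h3] at h2 ⊢
  exact le_antisymm h2 h1

end MSG.FS
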