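import Pool.Agent.Lib.MP_2a6af3_al.Z.WallThm
import Pool.Agent.Lib.MP_2a6af3_al.C.Len

/-! The set `L = C(a) S`, labels, tiles along walks in `L` (MP_2a6af3_al, helper40). -/

namespace MSG.FS

open Classical
open MSG.H25.Gr (Ho ho_refl ho_trans ho_congr ho_symm ho_mono ho_isW ho_reverse ho_cancel ho_cat
  ho_of_loop isW_cat isW_reverse isW_single isW_ne isW_cons cat_eq cat_assoc cat_last cat_single
  cat_reverse cat_map mem_cat hom_zero exists_isW)

variable {V : Type} {Γ : Type} [Group Γ] [MulAction Γ V] {G : SimpleGraph V}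

/-- composition of tiles -/
theorem Tile.comp (hadj : ∀ (g : Γ) x y, G.Adj (g • x) (g • y) ↔ G.Adj x y) {Y Y₂ Y' : Set V}
    {s g b : Γ} (hsb : s * b = b * s) (hgb : g * b = b * g) {x : V} {α w σ : List V}
    (hα : IsW G x (s • x) α) (hw : IsW G x (g • x) w) (hσ : IsW G x (b • x) σ) (hY : Y ⊆ Y')
    (hY₂ : ∀ y ∈ Y₂, s • y ∈ Y') (h1 : Tile G Y s b α σ) (h2 : Tile G Y₂ g b w σ) :
    Tile G Y' (s * g) b (cat α (tr s w)) σ := by
  unfold Tile
  have w1 : IsW G (s • x) (s • (g • x)) (tr s w) := isW_tr hadj s hw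
  have w2 : IsW G (s • x) (s • (b • x)) (tr s σ) := isW_tr hadj s hσ
  have w3 : IsW G (g • x) (g • (b • x)) (tr g σ) := isW_tr hadj g hσ
  have w4 : IsW G (b • x) (b • (g • x)) (tr b w) := isW_tr hadj b hw
  have w5 : IsW G (b • x) (b • (s • x)) (tr b α) := isW_tr hadj b hα
  have w6 : IsW G (s • (b • x)) (s • (b • (g • x))) (tr s (tr b w)) := isW_tr hadj s w4
  have e1 : cat (cat α (tr s w)) (tr (s * g) σ) = cat α (tr s (cat w (tr g σ))) := by
    rw [cat_assoc w1, tr_cat, tr_tr]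
  have e2 : cat α (tr s (cat σ (tr b w))) = cat (cat α (tr s σ)) (tr s (tr b w)) := by
    rw [tr_cat, cat_assoc w2]
  have e3 : cat (cat σ (tr b α)) (tr s (tr b w)) = cat σ (tr b (cat α (tr s w))) := by
    rw [cat_assoc w5, tr_cat, tr_tr, tr_tr, hsb]
  rw [e1]
  have k1 : Ho G Y' (cat α (tr s (cat w (tr g σ)))) (cat α (tr s (cat σ (tr b w)))) :=
    ho_cat a_homA hα (isW_tr hadj s (isW_cat hw w3)) (ho_refl _) (ho_tr hadj s hY₂ h2)
  rw [e2] at k1
  have k2 : Ho G Y' (cat (cat α (tr s σ)) (tr s (tr b w))) (cat (cat σ (tr b α)) (tr s (tr b w))) :=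
    ho_cat a_homA (isW_cat hα w2) w6 (ho_mono a_homA hY h1) (ho_refl _)
  rw [e3] at k2
  exact ho_trans a_homA k1 k2

/-- the orbit of `S` under the centralizer of `a` -/
def Lset (a : Γ) (S : Set V) : Set V := {v | ∃ c : Γ, a * c = c * a ∧ ∃ s ∈ S, v = c • s}

/-- The data. -/
structure Dat (X : Cx V) (a : Γ) (x₀ : V) (Sg : Finset Γ) (S : Set V) (om : Γ → List V)
    (τ : V → List V) : Prop where
  ms : X.IsMS
  geom : X.IsGeom Γ
  free : FreeAut X (MulAction.toPerm a)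
  gen : Gen Sg a
  fin : S.Finite
  x₀S : x₀ ∈ S
  omW : ∀ s ∈ Sg, IsW X.G x₀ (s • x₀) (om s)
  omS : ∀ s ∈ Sg, ∀ v ∈ om s, v ∈ S
  τW : ∀ v, IsW X.G v (a • v) (τ v)
  τS : ∀ v ∈ τ x₀, v ∈ S
  tile : ∀ s ∈ Sg, Tile X.G (Lset a S) s a (om s) (τ x₀)

theorem Lset_smul {a : Γ} {S : Set V} {c : Γ} (hc : a * c = c * a) (v : V) :
    c • v ∈ Lset a S ↔ v ∈ Lset a S := by
  constructor
  · rintro ⟨d, hd, s, hs, h⟩
    refine ⟨c⁻¹ * d, comm_inv_mul hc hd, s, hs, ?_⟩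
    rw [mul_smul, ← h, inv_smul_smul]
  · rintro ⟨d, hd, s, hs, rfl⟩
    exact ⟨c * d, comm_mul' hc hd, s, hs, by rw [mul_smul]⟩

theorem S_Lset {a : Γ} {S : Set V} {s : V} (hs : s ∈ S) : s ∈ Lset a S :=
  ⟨1, by simp, s, hs, by simp⟩

/-- near points have near labels -/
theorem near_ell {X : Cx V} (hG : X.IsGeom Γ) {Sg : Finset Γ} {a : Γ} (hg : Gen Sg a)
    {M M' : Set V} (hM : M.Finite) (hM' : M'.Finite) :
    ∃ κ : ℕ, ∀ c c' : Γ, a * c = c * a → a * c' = c' * a → ∀ m ∈ M, ∀ m' ∈ M', ∀ k : ℤ,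
      Nr X.G (c • (a ^ k • m)) (c' • m') → ell Sg a (c⁻¹ * c') ≤ κ := by
  have hfin := (a_proper V X Γ hG).1 M M' hM hM'
  obtain ⟨κ, hκ⟩ := (hfin.image (ell Sg a)).bddAbove
  refine ⟨κ, ?_⟩
  intro c c' hc hc' m hm m' hm' k h
  have h1 : Nr X.G ((c'⁻¹ * c * a ^ k) • m) m' := by
    rw [mul_smul, mul_smul, nr_smul hG.adj, inv_inv]
    exact h
  have h2 : ell Sg a (c'⁻¹ * c * a ^ k) ≤ κ := hκ ⟨_, ⟨m, hm, m', hm', h1⟩, rfl⟩
  rw [ell_apow] at h2
  have h3 := hg.ell_inv (comm_inv_mul hc' hc)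
  rw [mul_inv_rev, inv_inv] at h3
  omega

/-- closed walks are null-homotopic in finite sets -/
theorem nul_ex {X : Cx V} (hMS : X.IsMS) {x : V} {l : List V} (hl : IsW X.G x x l) :
    ∃ N : Set V, N.Finite ∧ Nul X.G N l := by
  obtain ⟨e, he⟩ := a_sc V X.G hMS.sc x l (fun _ _ _ => 0) hl
  obtain rfl := hom_zero he
  obtain ⟨N, -, h1, hN⟩ := (a_homA V X.G Set.univ _).2.2.2.2.2.2.2.1 _ _ _ he
  exact ⟨(N : Set V), N.finite_toSet, fun v hv => h1 v hv, x, hl, hN⟩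

theorem nul_tr (hadj : ∀ (g : Γ) x y, G.Adj (g • x) (g • y) ↔ G.Adj x y) (c : Γ) {N : Set V}
    {l : List V} (h : Nul G N l) : Nul G {v | ∃ m ∈ N, v = c • m} (tr c l) := by
  obtain ⟨h1, x, h2, h3⟩ := h
  refine ⟨?_, c • x, isW_tr hadj c h2,
    ho_tr (Y' := {v | ∃ m ∈ N, v = c • m}) hadj c (fun y hy => ⟨y, hy, rfl⟩) h3⟩
  intro v hv
  obtain ⟨u, hu, rfl⟩ := mem_tr.1 hv
  exact ⟨u, h1 u hu, rfl⟩

theorem isW_sq (hadj : ∀ (g : Γ) x y, G.Adj (g • x) (g • y) ↔ G.Adj x y) {a : Γ} {x y : V}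
    {π s s' : List V} (hπ : IsW G x y π) (hs : IsW G x (a • x) s) (hs' : IsW G y (a • y) s') :
    IsW G x x (sq (MulAction.toPerm a) π s s') :=
  isW_cat (isW_cat (isW_cat hπ hs') (isW_reverse (isW_tr hadj a hπ))) (isW_reverse hs)

theorem tr_sq {a c : Γ} (hc : a * c = c * a) (π s s' : List V) :
    tr c (sq (MulAction.toPerm a) π s s') =
      sq (MulAction.toPerm a) (tr c π) (tr c s) (tr c s') := by
  unfold sq
  rw [tr_cat, tr_cat, tr_cat]
  have e1 : tr c (List.map (MulAction.toPerm a) π).reverse =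
      (List.map (MulAction.toPerm a) (tr c π)).reverse := by
    show ((List.map (MulAction.toPerm a) π).reverse).map (fun v => c • v) = _
    rw [List.map_reverse]
    congr 1
    have h1 : (List.map (MulAction.toPerm a) π).map (fun v => c • v) = tr c (tr a π) := rfl
    have h2 : List.map (MulAction.toPerm a) (tr c π) = tr a (tr c π) := rfl
    rw [h1, h2, tr_tr, tr_tr, hc]
  have e2 : tr c s.reverse = (tr c s).reverse := List.map_reverse
  rw [e1, e2]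

section lab

variable {X : Cx V} {a : Γ} {x₀ : V} {Sg : Finset Γ} {S : Set V} {om : Γ → List V}
  {τ : V → List V}

theorem Dat.tiles (D : Dat X a x₀ Sg S om τ) :
    ∃ M : Set V, M.Finite ∧ ∀ c c' : Γ, a * c = c * a → a * c' = c' * a → ∀ s ∈ S, ∀ s' ∈ S,
      ((c • s = c' • s' → Nul X.G {v | ∃ m ∈ M, v = c • m}
        (sq (MulAction.toPerm a) [c • s] (tr c (τ s)) (tr c' (τ s')))) ∧
      (X.G.Adj (c • s) (c' • s') → Nul X.G {v | ∃ m ∈ M, v = c • m}
        (sq (MulAction.toPerm a) [c • s, c' • s'] (tr c (τ s)) (tr c' (τ s'))))) := by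
  have hadj := D.geom.adj
  have hfin := (a_proper V X Γ D.geom).1 S S D.fin D.fin
  obtain ⟨P, hP⟩ : ∃ P : Set Γ, P = {g : Γ | ∃ x ∈ S, ∃ y ∈ S, Nr X.G (g • x) y} := ⟨_, rfl⟩
  rw [← hP] at hfin
  have ex1 : ∀ (q : Γ × V × V), ∃ N : Set V, N.Finite ∧ (a * q.1 = q.1 * a → q.2.1 = q.1 • q.2.2 →
      Nul X.G N (sq (MulAction.toPerm a) [q.2.1] (τ q.2.1) (tr q.1 (τ q.2.2)))) := by
    rintro ⟨γ, s, s'⟩
    by_cases h : a * γ = γ * a ∧ s = γ • s'
    · obtain ⟨h1, h2⟩ := h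
      have w1 : IsW X.G s (a • s) (tr γ (τ s')) := by
        have := isW_tr hadj γ (D.τW s')
        rw [← mul_smul, ← h1, mul_smul, ← h2] at this
        exact this
      obtain ⟨N, hN, hN'⟩ := nul_ex D.ms (isW_sq hadj (isW_single s) (D.τW s) w1)
      exact ⟨N, hN, fun _ _ => hN'⟩
    · exact ⟨∅, Set.finite_empty, fun h1 h2 => absurd ⟨h1, h2⟩ h⟩
  have ex2 : ∀ (q : Γ × V × V), ∃ N : Set V, N.Finite ∧ (a * q.1 = q.1 * a →
      X.G.Adj q.2.1 (q.1 • q.2.2) →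
      Nul X.G N (sq (MulAction.toPerm a) [q.2.1, q.1 • q.2.2] (τ q.2.1) (tr q.1 (τ q.2.2)))) := by
    rintro ⟨γ, s, s'⟩
    by_cases h : a * γ = γ * a ∧ X.G.Adj s (γ • s')
    · obtain ⟨h1, h2⟩ := h
      have w1 : IsW X.G (γ • s') (a • (γ • s')) (tr γ (τ s')) := by
        have := isW_tr hadj γ (D.τW s')
        rw [← mul_smul, ← h1, mul_smul] at this
        exact this
      have w2 : IsW X.G s (γ • s') [s, γ • s'] := ⟨by simpa using h2, rfl, rfl⟩
      obtain ⟨N, hN, hN'⟩ := nul_ex D.ms (isW_sq hadj w2 (D.τW s) w1)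
      exact ⟨N, hN, fun _ _ => hN'⟩
    · exact ⟨∅, Set.finite_empty, fun h1 h2 => absurd ⟨h1, h2⟩ h⟩
  choose N1 hN1f hN1 using ex1
  choose N2 hN2f hN2 using ex2
  have hprod : (P ×ˢ (S ×ˢ S)).Finite := hfin.prod (D.fin.prod D.fin)
  obtain ⟨M, hM⟩ : ∃ M : Set V, M = ⋃ q ∈ (P ×ˢ (S ×ˢ S)), (N1 q ∪ N2 q) := ⟨_, rfl⟩
  refine ⟨M, ?_, ?_⟩
  · rw [hM]
    exact hprod.biUnion (fun q _ => (hN1f q).union (hN2f q))
  · intro c c' hc hc' s hs s' hs'
    obtain ⟨γ, hγ⟩ : ∃ γ : Γ, γ = c⁻¹ * c' := ⟨_, rfl⟩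
    have cγ : a * γ = γ * a := by rw [hγ]; exact comm_inv_mul hc hc'
    have e1 : c • (γ • s') = c' • s' := by rw [hγ, ← mul_smul, mul_inv_cancel_left]
    have e2 : tr c (tr γ (τ s')) = tr c' (τ s') := by rw [tr_tr, hγ, mul_inv_cancel_left]
    have sub : γ ∈ P → ∀ N : Set V, (N ⊆ N1 (γ, s, s') ∪ N2 (γ, s, s')) → N ⊆ M := by
      intro hγP N hN v hv
      rw [hM]
      exact Set.mem_biUnion (show (γ, s, s') ∈ P ×ˢ (S ×ˢ S) from ⟨hγP, hs, hs'⟩) (hN hv)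
    constructor
    · intro h
      have h1 : s = γ • s' := by
        rw [hγ, mul_smul, ← h, inv_smul_smul]
      have hγP : γ ∈ P := by
        rw [hP]
        exact ⟨s', hs', s, hs, Or.inl h1.symm⟩
      have h2 := nul_tr hadj c (hN1 (γ, s, s') cγ h1)
      rw [tr_sq hc] at h2
      simp only [tr_single, e2] at h2
      refine H84.nul_mono a_homA ?_ h2
      rintro v ⟨m, hm, rfl⟩
      exact ⟨m, sub hγP _ Set.subset_union_left hm, rfl⟩
    · intro h
      have h1 : X.G.Adj s (γ • s') := by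
        rw [← hadj c, e1]
        exact h
      have hγP : γ ∈ P := by
        rw [hP]
        exact ⟨s', hs', s, hs, Or.inr h1.symm⟩
      have h2 := nul_tr hadj c (hN2 (γ, s, s') cγ h1)
      rw [tr_sq hc] at h2
      have e3 : tr c [s, γ • s'] = [c • s, c' • s'] := by
        show [c • s, c • (γ • s')] = _
        rw [e1]
      simp only [e2, e3] at h2
      refine H84.nul_mono a_homA ?_ h2
      rintro v ⟨m, hm, rfl⟩
      exact ⟨m, sub hγP _ Set.subset_union_right hm, rfl⟩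

/-- tiles along a walk in `L` -/
theorem Dat.annulus (D : Dat X a x₀ Sg S om τ) {M : Set V} (hMf : M.Finite)
    (hM : ∀ c c' : Γ, a * c = c * a → a * c' = c' * a → ∀ s ∈ S, ∀ s' ∈ S,
      ((c • s = c' • s' → Nul X.G {v | ∃ m ∈ M, v = c • m}
        (sq (MulAction.toPerm a) [c • s] (tr c (τ s)) (tr c' (τ s')))) ∧
      (X.G.Adj (c • s) (c' • s') → Nul X.G {v | ∃ m ∈ M, v = c • m}
        (sq (MulAction.toPerm a) [c • s, c' • s'] (tr c (τ s)) (tr c' (τ s')))))) (π : List V) :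
    ∀ (c c' : Γ) (s s' : V), IsW X.G (c • s) (c' • s') π → (∀ z ∈ π, z ∈ Lset a S) →
      a * c = c * a → a * c' = c' * a → s ∈ S → s' ∈ S →
      ∃ S₀ : Set V, S₀.Finite ∧ Nul X.G S₀ (sq (MulAction.toPerm a) π (tr c (τ s)) (tr c' (τ s'))) ∧
        ∀ z ∈ S₀, ∃ d : Γ, a * d = d * a ∧ ∃ t ∈ S, d • t ∈ π ∧ ∃ m ∈ M, z = d • m := by
  have hadj := D.geom.adj
  have tw : ∀ (d : Γ) (t : V), a * d = d * a → IsW X.G (d • t) (a • (d • t)) (tr d (τ t)) := by
    intro d t hd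
    have := isW_tr hadj d (D.τW t)
    rw [← mul_smul, ← hd, mul_smul] at this
    exact this
  induction π with
  | nil =>
    intro c c' s s' hw
    exact absurd rfl (isW_ne hw)
  | cons u π ih =>
    intro c c' s s' hw hL hc hc' hs hs'
    have hu : u = c • s := by simpa using hw.first
    cases π with
    | nil =>
      have hv : u = c' • s' := by simpa using hw.last
      refine ⟨{v | ∃ m ∈ M, v = c • m}, ?_, ?_, ?_⟩
      · refine (hMf.image (fun m => c • m)).subset ?_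
        rintro v ⟨m, hm, rfl⟩
        exact ⟨m, hm, rfl⟩
      · rw [hu]
        exact (hM c c' hc hc' s hs s' hs').1 (hu.symm.trans hv)
      · rintro z ⟨m, hm, rfl⟩
        exact ⟨c, hc, s, hs, by rw [hu]; simp, m, hm, rfl⟩
    | cons y π =>
      have hch := hw.chain
      rw [List.isChain_cons_cons] at hch
      obtain ⟨d, hd, t, ht, hy⟩ := hL y (by simp)
      have hw' : IsW X.G (d • t) (c' • s') (y :: π) := ⟨hch.2, by rw [hy]; rfl, by
        have := hw.last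
        rwa [List.getLast?_cons_cons] at this⟩
      obtain ⟨S₁, hS₁, hN₁, hz₁⟩ := ih d c' t s' hw' (fun z hz => hL z (List.mem_cons_of_mem _ hz))
        hd hc' ht hs'
      have hadj' : X.G.Adj (c • s) (d • t) := by rw [← hu, ← hy]; exact hch.1
      have hN₂ := (hM c d hc hd s hs t ht).2 hadj'
      obtain ⟨S₂, hS₂⟩ : ∃ S₂ : Set V, S₂ = {v | ∃ m ∈ M, v = c • m} := ⟨_, rfl⟩
      rw [← hS₂] at hN₂
      have hS₂f : S₂.Finite := by
        rw [hS₂]
        refine (hMf.image (fun m => c • m)).subset ?_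
        rintro v ⟨m, hm, rfl⟩
        exact ⟨m, hm, rfl⟩
      have w2 : IsW X.G (c • s) (d • t) [c • s, d • t] := ⟨by simpa using hadj', rfl, rfl⟩
      have hcomp := (a_homB V X.G (MulAction.toPerm a) (hadj a) (S₂ ∪ S₁) (c • s) (d • t) (c' • s')
        [c • s, d • t] (y :: π) (tr c (τ s)) (tr d (τ t)) (tr c' (τ s')) w2 hw' (tw c s hc)
        (tw d t hd) (tw c' s' hc')).1 (H84.nul_mono a_homA Set.subset_union_left hN₂)
        (H84.nul_mono a_homA Set.subset_union_right hN₁)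
      have e : cat [c • s, d • t] (y :: π) = u :: y :: π := by
        show [c • s, d • t] ++ π = _
        rw [hu, hy]
        rfl
      rw [e] at hcomp
      refine ⟨S₂ ∪ S₁, hS₂f.union hS₁, hcomp, ?_⟩
      rintro z (hz | hz)
      · rw [hS₂] at hz
        obtain ⟨m, hm, rfl⟩ := hz
        exact ⟨c, hc, s, hs, by rw [hu]; simp, m, hm, rfl⟩
      · obtain ⟨d', hd', t', ht', hmem, m, hm, h⟩ := hz₁ z hz
        exact ⟨d', hd', t', ht', List.mem_cons_of_mem _ hmem, m, hm, h⟩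

end lab

end MSG.FS
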