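import Pool.Agent.Lib.MP_2a6af3_al.C.Bottle

/-! Walls for `C(a) / ⟨a⟩` (MP_2a6af3_al, helper40). -/

namespace MSG.FS

open Classical
open MSG.H25.Gr (Ho ho_refl ho_trans ho_congr ho_symm ho_mono ho_isW ho_reverse ho_cancel ho_cat
  ho_of_loop isW_cat isW_reverse isW_single isW_ne isW_cons cat_eq cat_assoc cat_last cat_single
  cat_reverse cat_map mem_cat hom_zero exists_isW)

variable {V : Type} {Γ : Type} [Group Γ] [MulAction Γ V] {G : SimpleGraph V}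

/-- initial part of a walk -/
theorem isW_prefix {x y z : V} {π : List V} (h : IsW G x y π) (hz : z ∈ π) :
    ∃ π', IsW G x z π' ∧ ∀ v ∈ π', v ∈ π := by
  obtain ⟨p, q, rfl⟩ := List.append_of_mem hz
  refine ⟨p ++ [z], ⟨?_, ?_, by simp⟩, ?_⟩
  · have h1 := h.chain
    have e : p ++ z :: q = (p ++ [z]) ++ q := by simp
    rw [e, List.isChain_append] at h1
    exact h1.1
  · have h1 := h.first
    cases p with
    | nil => simpa using h1
    | cons c p => simpa using h1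
  · intro v hv
    rcases List.mem_append.1 hv with hv | hv
    · exact List.mem_append_left _ hv
    · rw [List.mem_singleton.1 hv]
      simp

/-- the ball around `g` -/
def Bc (Sg : Finset Γ) (a : Γ) (S : Set V) (r : ℕ) (g : Γ) : Set V :=
  {v | ∃ c : Γ, a * c = c * a ∧ ell Sg a (g⁻¹ * c) ≤ r ∧ ∃ s ∈ S, v = c • s}

/-- the neighbourhood of the ball in `L` -/
def Zc (X : Cx V) (Sg : Finset Γ) (a : Γ) (S : Set V) (r : ℕ) (g : Γ) : Set V :=
  {v | v ∈ Lset a S ∧ ∃ u ∈ Bc Sg a S r g, Nr X.G u v}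

/-- `v` is joined to `e x₀` outside the ball around `g` -/
def Rch (X : Cx V) (x₀ : V) (Sg : Finset Γ) (a : Γ) (S : Set V) (r : ℕ) (g e : Γ) (v : V) : Prop :=
  ∃ π, IsW X.G v (e • x₀) π ∧ ∀ z ∈ π, z ∈ Lset a S ∧ z ∉ Bc Sg a S r g

section lab

variable {X : Cx V} {a : Γ} {x₀ : V} {Sg : Finset Γ} {S : Set V} {om : Γ → List V}
  {τ : V → List V} {r : ℕ}

theorem Bc_L {g : Γ} {v : V} (hv : v ∈ Bc Sg a S r g) : v ∈ Lset a S := by
  obtain ⟨c, hc, -, s, hs, h⟩ := hv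
  exact ⟨c, hc, s, hs, h⟩

theorem Bc_Zc {g : Γ} {v : V} (hv : v ∈ Bc Sg a S r g) : v ∈ Zc X Sg a S r g :=
  ⟨Bc_L hv, v, hv, Or.inl rfl⟩

theorem Bc_apow {g : Γ} {v : V} (k : ℤ) (hv : v ∈ Bc Sg a S r g) :
    a ^ k • v ∈ Bc Sg a S r g := by
  obtain ⟨c, hc, hr, s, hs, rfl⟩ := hv
  refine ⟨c * a ^ k, ?_, ?_, s, hs, ?_⟩
  · rw [← mul_assoc, hc, mul_assoc, mul_assoc, ((Commute.refl a).zpow_right k).eq]
  · rw [← mul_assoc, ell_apow]
    exact hr
  · rw [← mul_smul, comm_zpow' hc k]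

theorem Bc_apow_iff {g : Γ} (v : V) (k : ℤ) : a ^ k • v ∈ Bc Sg a S r g ↔ v ∈ Bc Sg a S r g := by
  refine ⟨fun h => ?_, Bc_apow k⟩
  have := Bc_apow (-k) h
  rwa [← mul_smul, ← zpow_add, neg_add_cancel, zpow_zero, one_smul] at this

theorem apow_comm (a : Γ) (k : ℤ) : a * a ^ k = a ^ k * a := ((Commute.refl a).zpow_right k).eq

theorem Zc_apow (hadj : ∀ (g : Γ) x y, X.G.Adj (g • x) (g • y) ↔ X.G.Adj x y) {g : Γ} {v : V}
    (k : ℤ) (hv : v ∈ Zc X Sg a S r g) : a ^ k • v ∈ Zc X Sg a S r g := by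
  obtain ⟨h1, u, hu, h2⟩ := hv
  exact ⟨(Lset_smul (apow_comm a k) v).2 h1, a ^ k • u, Bc_apow k hu, (nr_zsmul hadj _ _ _).2 h2⟩

theorem Zc_apow_iff (hadj : ∀ (g : Γ) x y, X.G.Adj (g • x) (g • y) ↔ X.G.Adj x y) {g : Γ} (v : V)
    (k : ℤ) : a ^ k • v ∈ Zc X Sg a S r g ↔ v ∈ Zc X Sg a S r g := by
  refine ⟨fun h => ?_, Zc_apow hadj k⟩
  have := Zc_apow hadj (-k) h
  rwa [← mul_smul, ← zpow_add, neg_add_cancel, zpow_zero, one_smul] at this

theorem Zc_smul (hadj : ∀ (g : Γ) x y, X.G.Adj (g • x) (g • y) ↔ X.G.Adj x y) {g d : Γ}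
    (hd : a * d = d * a) {v : V} (hv : v ∈ Zc X Sg a S r g) : d • v ∈ Zc X Sg a S r (d * g) := by
  obtain ⟨h1, u, ⟨c, hc, hr, s, hs, rfl⟩, h2⟩ := hv
  refine ⟨(Lset_smul hd v).2 h1, d • (c • s), ⟨d * c, comm_mul' hd hc, ?_, s, hs, ?_⟩,
    (nr_zsmul hadj _ _ _).2 h2⟩
  · rw [mul_inv_rev, mul_assoc, inv_mul_cancel_left]
    exact hr
  · rw [mul_smul]

theorem Zc_one (hadj : ∀ (g : Γ) x y, X.G.Adj (g • x) (g • y) ↔ X.G.Adj x y) {g : Γ}
    (hg : a * g = g * a) {v : V} (hv : v ∈ Zc X Sg a S r g) : g⁻¹ • v ∈ Zc X Sg a S r 1 := by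
  have hg' : a * g⁻¹ = g⁻¹ * a := ((show Commute a g from hg).inv_right).eq
  have := Zc_smul hadj hg' hv
  rwa [inv_mul_cancel] at this

/-- heights near the ball around `1` -/
theorem Dat.heights (D : Dat X a x₀ Sg S om τ) (r : ℕ) : ∃ (h₀ : V → ℤ) (H : ℤ), 0 ≤ H ∧
    (∀ v ∈ Zc X Sg a S r 1, h₀ (a • v) = h₀ v + 1) ∧
    (∀ x ∈ Zc X Sg a S r 1, ∀ y ∈ Zc X Sg a S r 1, X.G.Adj x y → |h₀ x - h₀ y| ≤ H) := by
  have hadj := D.geom.adj
  have hWf : ((fun l : List Sg => (l.map Subtype.val).prod) '' {l : List Sg | l.length ≤ r}).Finite :=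
    (List.finite_length_le Sg r).image _
  obtain ⟨W, hW⟩ : ∃ W : Set Γ, W = (fun l : List Sg => (l.map Subtype.val).prod) ''
    {l : List Sg | l.length ≤ r} := ⟨_, rfl⟩
  rw [← hW] at hWf
  obtain ⟨B, hB⟩ : ∃ B : Set V, B = {v | ∃ p ∈ W, ∃ s ∈ S, v = p • s} := ⟨_, rfl⟩
  have hBf : B.Finite := by
    refine ((hWf.prod D.fin).image (fun q : Γ × V => q.1 • q.2)).subset ?_
    rw [hB]
    rintro v ⟨p, hp, s, hs, rfl⟩
    exact ⟨(p, s), ⟨hp, hs⟩, rfl⟩
  have hNf := nr_finite D.geom.locfin hBf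
  obtain ⟨h₀, H, hH, h1, h2⟩ := a_ht V X (MulAction.toPerm a) D.free D.geom.locfin _ hNf
  have key : ∀ v ∈ Zc X Sg a S r 1, ∃ n : ℤ, ((MulAction.toPerm a : Equiv.Perm V) ^ n) v ∈
      {v | ∃ c ∈ B, Nr X.G c v} := by
    rintro v ⟨-, u, ⟨c, hc, hr, s, hs, rfl⟩, hcv⟩
    rw [inv_one, one_mul] at hr
    obtain ⟨l, hl, hlr, k, hk⟩ := D.gen.spec hc
    lift l to List {x // x ∈ Sg} using hl
    refine ⟨-k, ?_⟩
    rw [zpow_perm]
    obtain ⟨p, hp⟩ : ∃ p : Γ, p = (l.map Subtype.val).prod := ⟨_, rfl⟩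
    have pc : a * p = p * a := by
      rw [hp]
      refine D.gen.prod ?_
      intro s hs
      obtain ⟨t, -, rfl⟩ := List.mem_map.1 hs
      exact t.2
    have hk' : c = p * a ^ k := by rw [hk, hp]
    refine ⟨p • s, ?_, ?_⟩
    · rw [hB]
      refine ⟨p, ?_, s, hs, rfl⟩
      rw [hW]
      refine ⟨l, ?_, hp.symm⟩
      have : (List.map Subtype.val l).length = l.length := List.length_map _
      show l.length ≤ r
      omega
    · rw [← nr_zsmul hadj (a ^ k), ← mul_smul, ← mul_smul, comm_zpow' pc k, ← hk', ← zpow_add,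
        add_neg_cancel, zpow_zero, one_smul]
      exact hcv
  exact ⟨h₀, H, hH, fun v hv => h1 v (key v hv), fun x hx y hy hxy =>
    h2 x y (key x hx) (key y hy) (Or.inr hxy)⟩

/-- reachability is invariant under `a` -/
theorem Dat.rch_a (D : Dat X a x₀ Sg S om τ) {g e : Γ} (he : a * e = e * a)
    (hav : ∀ z ∈ tr e (τ x₀), z ∉ Bc Sg a S r g) (v : V) :
    Rch X x₀ Sg a S r g e (a • v) ↔ Rch X x₀ Sg a S r g e v := by
  have hadj := D.geom.adj
  have wσ : IsW X.G (e • x₀) (a • (e • x₀)) (tr e (τ x₀)) := by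
    have := isW_tr hadj e (D.τW x₀)
    rw [← mul_smul, ← he, mul_smul] at this
    exact this
  have eL : ∀ z ∈ tr e (τ x₀), z ∈ Lset a S := by
    intro z hz
    obtain ⟨u, hu, rfl⟩ := mem_tr.1 hz
    exact ⟨e, he, u, D.τS u hu, rfl⟩
  constructor
  · rintro ⟨π, hπ, hz⟩
    have w1 : IsW X.G v (a⁻¹ • (e • x₀)) (tr a⁻¹ π) := by
      have := isW_tr hadj a⁻¹ hπ
      rwa [inv_smul_smul] at this
    have w2 : IsW X.G (a⁻¹ • (e • x₀)) (e • x₀) (tr a⁻¹ (tr e (τ x₀))) := by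
      have := isW_tr hadj a⁻¹ wσ
      rwa [inv_smul_smul] at this
    refine ⟨_, isW_cat w1 w2, ?_⟩
    have inv1 : ∀ z, z ∈ Lset a S → a⁻¹ • z ∈ Lset a S := by
      intro z hz
      have := (Lset_smul (a := a) (S := S) (apow_comm a (-1)) z).2 hz
      rwa [zpow_neg_one] at this
    have inv2 : ∀ z, z ∉ Bc Sg a S r g → a⁻¹ • z ∉ Bc Sg a S r g := by
      intro z hz h
      apply hz
      have := (Bc_apow_iff (r := r) (g := g) (S := S) (Sg := Sg) (a := a) z (-1)).1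
      rw [zpow_neg_one] at this
      exact this h
    intro z hz'
    rcases mem_cat hz' with h | h
    · obtain ⟨u, hu, rfl⟩ := mem_tr.1 h
      exact ⟨inv1 u (hz u hu).1, inv2 u (hz u hu).2⟩
    · obtain ⟨u, hu, rfl⟩ := mem_tr.1 h
      exact ⟨inv1 u (eL u hu), inv2 u (hav u hu)⟩
  · rintro ⟨π, hπ, hz⟩
    have w1 := isW_tr hadj a hπ
    refine ⟨_, isW_cat w1 (isW_reverse wσ), ?_⟩
    have ha1 : a * a = a * a := rfl
    intro z hz'
    rcases mem_cat hz' with h | h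
    · obtain ⟨u, hu, rfl⟩ := mem_tr.1 h
      refine ⟨(Lset_smul ha1 u).2 (hz u hu).1, ?_⟩
      have := (Bc_apow_iff (r := r) (g := g) (S := S) (Sg := Sg) (a := a) u 1)
      rw [zpow_one] at this
      exact fun h' => (hz u hu).2 (this.1 h')
    · rw [List.mem_reverse] at h
      exact ⟨eL z h, hav z h⟩

theorem Dat.rch_zpow (D : Dat X a x₀ Sg S om τ) {g e : Γ} (he : a * e = e * a)
    (hav : ∀ z ∈ tr e (τ x₀), z ∉ Bc Sg a S r g) (v : V) (k : ℤ) :
    Rch X x₀ Sg a S r g e (a ^ k • v) ↔ Rch X x₀ Sg a S r g e v := by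
  have hn : ∀ (n : ℕ) (v : V), Rch X x₀ Sg a S r g e (a ^ n • v) ↔ Rch X x₀ Sg a S r g e v := by
    intro n
    induction n with
    | zero => intro v; simp
    | succ n ih =>
      intro v
      rw [pow_succ', mul_smul, D.rch_a he hav, ih]
  rcases Int.eq_nat_or_neg k with ⟨n, rfl | rfl⟩
  · rw [zpow_natCast]
    exact hn n v
  · have := hn n (a ^ (-(n : ℤ)) • v)
    rw [← mul_smul, ← zpow_natCast, ← zpow_add, add_neg_cancel, zpow_zero, one_smul] at this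
    exact this.symm

/-- the walls -/
theorem Dat.wall (D : Dat X a x₀ Sg S om τ) {h₀ : V → ℤ} {H : ℤ}
    (h1 : ∀ v ∈ Zc X Sg a S r 1, h₀ (a • v) = h₀ v + 1)
    (h2 : ∀ x ∈ Zc X Sg a S r 1, ∀ y ∈ Zc X Sg a S r 1, X.G.Adj x y → |h₀ x - h₀ y| ≤ H)
    {g e : Γ} (hg : a * g = g * a) (he : a * e = e * a)
    (hav : ∀ z ∈ tr e (τ x₀), z ∉ Bc Sg a S r g) :
    Wall X.G (Lset a S) a (fun v => if Rch X x₀ Sg a S r g e v then (1 : ZMod 2) else 0)
      (fun v => h₀ (g⁻¹ • v)) (Zc X Sg a S r g) H := by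
  have hadj := D.geom.adj
  have hg' : a * g⁻¹ = g⁻¹ * a := ((show Commute a g from hg).inv_right).eq
  refine ⟨?_, ?_, ?_, ?_, ?_⟩
  · intro v _
    have := Zc_apow_iff (r := r) (g := g) (S := S) (Sg := Sg) (a := a) hadj v 1
    rwa [zpow_one] at this
  · intro v _ hz
    show h₀ (g⁻¹ • (a • v)) = h₀ (g⁻¹ • v) + 1
    rw [← mul_smul, ← hg', mul_smul]
    exact h1 _ (Zc_one hadj hg hz)
  · intro v _
    show (if _ then (1 : ZMod 2) else 0) = if _ then (1 : ZMod 2) else 0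
    rw [D.rch_a he hav v]
  · intro x hx y hy hxy hne
    by_cases bx : x ∈ Bc Sg a S r g
    · exact Bc_Zc bx
    · by_cases by' : y ∈ Bc Sg a S r g
      · exact ⟨hx, y, by', Or.inr hxy.symm⟩
      · exfalso
        apply hne
        have key : ∀ x y : V, x ∈ Lset a S → x ∉ Bc Sg a S r g → X.G.Adj x y →
            Rch X x₀ Sg a S r g e y → Rch X x₀ Sg a S r g e x := by
          rintro x y hx bx hxy ⟨π, hπ, hz⟩
          obtain ⟨π', rfl⟩ := isW_cons hπ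
          refine ⟨x :: y :: π', ⟨?_, rfl, ?_⟩, ?_⟩
          · rw [List.isChain_cons_cons]
            exact ⟨hxy, hπ.chain⟩
          · rw [List.getLast?_cons_cons]
            exact hπ.last
          · intro z hz'
            rcases List.mem_cons.1 hz' with rfl | h
            · exact ⟨hx, bx⟩
            · exact hz z h
        have : Rch X x₀ Sg a S r g e x ↔ Rch X x₀ Sg a S r g e y :=
          ⟨key y x hy by' hxy.symm, key x y hx bx hxy⟩
        show (if _ then (1 : ZMod 2) else 0) = if _ then (1 : ZMod 2) else 0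
        rw [this]
  · intro x hx y hy zx zy hxy
    exact h2 _ (Zc_one hadj hg zx) _ (Zc_one hadj hg zy) ((hadj g⁻¹ x y).2 hxy)

end lab

end MSG.FS
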